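import Mathlib

set_option autoImplicit false

/-!
Locally indicable groups, and functions which are multiplicative on a subgroup.
-/

namespace Pool.Agent.Shared.StallingsSwan

variable {G M : Type} [Group G] [Group M]

/-- `f` is additive on the subgroup `C`. -/
def AddOn (C : Subgroup G) (f : G → ℚ) : Prop := ∀ x ∈ C, ∀ y ∈ C, f (x * y) = f x + f y

/-- Every nontrivial finitely generated subgroup has a nonzero homomorphism to the rationals. -/
def LocInd (G : Type) [Group G] : Prop :=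
  ∀ C : Subgroup G, C.FG → C ≠ ⊥ → ∃ f : G → ℚ, AddOn C f ∧ ∃ x ∈ C, f x ≠ 0

theorem AddOn.map_one {C : Subgroup G} {f : G → ℚ} (h : AddOn C f) : f 1 = 0 := by
  have := h 1 C.one_mem 1 C.one_mem
  rw [mul_one] at this
  linarith

theorem AddOn.map_inv {C : Subgroup G} {f : G → ℚ} (h : AddOn C f) {x : G} (hx : x ∈ C) :
    f x⁻¹ = -f x := by
  have := h x hx x⁻¹ (C.inv_mem hx)
  rw [mul_inv_cancel, h.map_one] at this
  linarith

theorem AddOn.map_pow {C : Subgroup G} {f : G → ℚ} (h : AddOn C f) {x : G} (hx : x ∈ C) (n : ℕ) :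
    f (x ^ n) = n * f x := by
  induction n with
  | zero => simp [h.map_one]
  | succ n ih => rw [pow_succ, h _ (C.pow_mem hx n) _ hx, ih]; push_cast; ring

/-- The elements of `C` killed by an additive function. -/
def AddOn.zeros {C : Subgroup G} {f : G → ℚ} (h : AddOn C f) : Subgroup G where
  carrier := {x | x ∈ C ∧ f x = 0}
  one_mem' := ⟨C.one_mem, h.map_one⟩
  mul_mem' := fun {x y} hx hy => ⟨C.mul_mem hx.1 hy.1, by rw [h x hx.1 y hy.1, hx.2, hy.2, add_zero]⟩
  inv_mem' := fun {x} hx => ⟨C.inv_mem hx.1, by rw [h.map_inv hx.1, hx.2, neg_zero]⟩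

theorem LocInd.eq_one_of_isOfFinOrder (h : LocInd G) {g : G} (hg : IsOfFinOrder g) : g = 1 := by
  by_contra hne
  obtain ⟨f, hf, x, hx, hfx⟩ := h (Subgroup.zpowers g)
    ⟨{g}, by simp [Subgroup.zpowers_eq_closure]⟩ (by simpa using hne)
  obtain ⟨k, rfl⟩ := Subgroup.mem_zpowers_iff.1 hx
  obtain ⟨n, hn, hgn⟩ := isOfFinOrder_iff_pow_eq_one.1 (hg.zpow (i := k))
  have := hf.map_pow hx n
  rw [hgn, hf.map_one] at this
  exact hfx ((mul_eq_zero.1 this.symm).resolve_left (by exact_mod_cast hn.ne'))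

theorem LocInd.of_injective (h : LocInd M) (q : G →* M) (hq : Function.Injective q) :
    LocInd G := by
  classical
  intro C hC hne
  obtain ⟨f, hf, x, hx, hfx⟩ := h (C.map q) (by
    obtain ⟨T, rfl⟩ := hC
    exact ⟨T.image q, by rw [MonoidHom.map_closure, Finset.coe_image]⟩)
    (by rwa [Ne, Subgroup.map_eq_bot_iff_of_injective _ hq])
  obtain ⟨y, hy, rfl⟩ := hx
  refine ⟨fun g => f (q g), fun a ha b hb => ?_, y, hy, hfx⟩
  simp only [map_mul]
  exact hf _ ⟨a, ha, rfl⟩ _ ⟨b, hb, rfl⟩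

end Pool.Agent.Shared.StallingsSwan
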