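import Mathlib

set_option autoImplicit false

/-!
Existence of an almost invariant set whose translates are nested.
-/

namespace Pool.Agent.Shared.StallingsSwan

open Set Filter
open scoped Pointwise symmDiff

variable {Γ : Type} [Group Γ]

/-- The coboundary of `S` in the directions `Y`. -/
def cob (Y : Set Γ) (S : Set Γ) : Set (Γ × Γ) := {p | p.2 ∈ Y ∧ ¬ (p.1 ∈ S ↔ p.1 * p.2 ∈ S)}

/-- `S` is almost invariant under right multiplication. -/
def AI (S : Set Γ) : Prop := ∀ g : Γ, {x | ¬ (x ∈ S ↔ x * g ∈ S)}.Finite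

/-- `S` is invariant under right multiplication by `A`. -/
def Inv (A : Subgroup Γ) (S : Set Γ) : Prop := ∀ x, ∀ a ∈ A, x ∈ S → x * a ∈ S

/-- Nontrivial almost invariant sets which are invariant under `A`. -/
def Nontriv (A : Subgroup Γ) (S : Set Γ) : Prop := AI S ∧ Inv A S ∧ S.Infinite ∧ Sᶜ.Infinite

theorem cob_compl (Y S : Set Γ) : cob Y Sᶜ = cob Y S := by
  ext p; simp only [cob, mem_ofPred_eq, mem_compl_iff]; tauto

theorem cob_symmDiff (Y S T : Set Γ) : cob Y (S ∆ T) = cob Y S ∆ cob Y T := by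
  ext p; simp only [cob, mem_ofPred_eq, mem_symmDiff]; tauto

theorem cob_smul (Y S : Set Γ) (g : Γ) :
    cob Y (g • S) = (fun p : Γ × Γ => (g * p.1, p.2)) '' cob Y S := by
  ext p
  simp only [cob, mem_ofPred_eq, mem_smul_set_iff_inv_smul_mem, smul_eq_mul, mem_image]
  constructor
  · intro h
    exact ⟨(g⁻¹ * p.1, p.2), ⟨h.1, by simpa [mul_assoc] using h.2⟩, by simp⟩
  · rintro ⟨q, h, rfl⟩
    exact ⟨h.1, by simpa [mul_assoc] using h.2⟩

theorem ncard_cob_smul (Y S : Set Γ) (g : Γ) : (cob Y (g • S)).ncard = (cob Y S).ncard := by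
  rw [cob_smul]
  refine ncard_image_of_injective _ (fun p q h => ?_)
  simp only [Prod.mk.injEq, mul_right_inj] at h
  exact Prod.ext h.1 h.2

theorem AI.finite_cob {S : Set Γ} (h : AI S) {Y : Set Γ} (hY : Y.Finite) : (cob Y S).Finite := by
  refine (hY.biUnion (fun y _ => (h y).image (fun x => (x, y)))).subset ?_
  intro p hp
  exact mem_biUnion hp.1 ⟨p.1, hp.2, rfl⟩

theorem ai_of_finite_cob {Y : Set Γ} (hY : Subgroup.closure Y = ⊤) {S : Set Γ}
    (h : (cob Y S).Finite) : AI S := by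
  intro g
  have hg : g ∈ Subgroup.closure Y := by rw [hY]; trivial
  induction hg using Subgroup.closure_induction with
  | mem y hy => exact (h.image Prod.fst).subset (fun x hx => ⟨(x, y), ⟨hy, hx⟩, rfl⟩)
  | one => simp
  | mul a b _ _ ha hb =>
    refine (ha.union (hb.image (fun x => x * a⁻¹))).subset (fun x hx => ?_)
    by_cases h1 : x ∈ S ↔ x * a ∈ S
    · refine Or.inr ⟨x * a, ?_, by simp⟩
      simp only [mem_ofPred_eq, mul_assoc] at hx ⊢
      tauto
    · exact Or.inl h1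
  | inv a _ ha =>
    refine (ha.image (fun x => x * a)).subset (fun x hx => ⟨x * a⁻¹, ?_, by simp⟩)
    simp only [mem_ofPred_eq, inv_mul_cancel_right] at hx ⊢
    tauto

theorem eq_of_cob_empty {Y : Set Γ} (hY : Subgroup.closure Y = ⊤) {S : Set Γ}
    (h : cob Y S = ∅) : S = ∅ ∨ S = univ := by
  have key : ∀ g x, x ∈ S ↔ x * g ∈ S := by
    intro g
    have hg : g ∈ Subgroup.closure Y := by rw [hY]; trivial
    induction hg using Subgroup.closure_induction with
    | mem y hy =>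
      intro x
      by_contra h1
      have : (x, y) ∈ cob Y S := ⟨hy, h1⟩
      rw [h] at this
      exact this
    | one => simp
    | mul a b _ _ ha hb => intro x; rw [ha x, hb, mul_assoc]
    | inv a _ ha => intro x; rw [ha (x * a⁻¹)]; simp
  by_cases h1 : (1 : Γ) ∈ S
  · exact Or.inr (eq_univ_of_forall fun x => by simpa using (key x 1).1 h1)
  · exact Or.inl (eq_empty_of_forall_notMem fun x hx => h1 ((key x 1).2 (by simpa using hx)))

theorem AI.compl {S : Set Γ} (h : AI S) : AI Sᶜ := fun g =>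
  (h g).subset (fun x hx => by simp only [mem_ofPred_eq, mem_compl_iff] at hx ⊢; tauto)

theorem AI.inter {S T : Set Γ} (hS : AI S) (hT : AI T) : AI (S ∩ T) := fun g =>
  ((hS g).union (hT g)).subset (fun x hx => by
    simp only [mem_ofPred_eq, mem_inter_iff, mem_union] at hx ⊢; tauto)

theorem AI.union {S T : Set Γ} (hS : AI S) (hT : AI T) : AI (S ∪ T) := fun g =>
  ((hS g).union (hT g)).subset (fun x hx => by
    simp only [mem_ofPred_eq, mem_union] at hx ⊢; tauto)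

theorem AI.symmDiff {S T : Set Γ} (hS : AI S) (hT : AI T) : AI (S ∆ T) := fun g =>
  ((hS g).union (hT g)).subset (fun x hx => by
    simp only [mem_ofPred_eq, mem_symmDiff, mem_union] at hx ⊢; tauto)

theorem AI.smul {S : Set Γ} (h : AI S) (g : Γ) : AI (g • S) := fun y =>
  ((h y).image (fun x => g * x)).subset (fun x hx => ⟨g⁻¹ * x, by
    simpa only [mem_ofPred_eq, mem_smul_set_iff_inv_smul_mem, smul_eq_mul, mul_assoc] using hx,
    by simp⟩)

variable {A : Subgroup Γ}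

theorem Inv.iff {S : Set Γ} (h : Inv A S) (x : Γ) {a : Γ} (ha : a ∈ A) : x ∈ S ↔ x * a ∈ S :=
  ⟨h x a ha, fun h1 => by simpa using h _ a⁻¹ (A.inv_mem ha) h1⟩

theorem Inv.compl {S : Set Γ} (h : Inv A S) : Inv A Sᶜ := fun x _ ha hx h1 =>
  hx ((h.iff x ha).2 h1)

theorem Inv.inter {S T : Set Γ} (hS : Inv A S) (hT : Inv A T) : Inv A (S ∩ T) :=
  fun x a ha hx => ⟨hS x a ha hx.1, hT x a ha hx.2⟩

theorem Inv.union {S T : Set Γ} (hS : Inv A S) (hT : Inv A T) : Inv A (S ∪ T) :=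
  fun x a ha hx => hx.imp (hS x a ha) (hT x a ha)

theorem Inv.symmDiff {S T : Set Γ} (hS : Inv A S) (hT : Inv A T) : Inv A (S ∆ T) := by
  intro x a ha hx
  rw [mem_symmDiff] at hx ⊢
  rw [← hS.iff x ha, ← hT.iff x ha]
  exact hx

theorem Inv.smul {S : Set Γ} (h : Inv A S) (g : Γ) : Inv A (g • S) := by
  intro x a ha hx
  rw [mem_smul_set_iff_inv_smul_mem, smul_eq_mul] at hx ⊢
  rw [← mul_assoc]
  exact h _ a ha hx

theorem Nontriv.compl {S : Set Γ} (h : Nontriv A S) : Nontriv A Sᶜ :=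
  ⟨h.1.compl, h.2.1.compl, h.2.2.2, by simpa using h.2.2.1⟩

theorem Nontriv.smul {S : Set Γ} (h : Nontriv A S) (g : Γ) : Nontriv A (g • S) :=
  ⟨h.1.smul g, h.2.1.smul g, h.2.2.1.smul_set, by rw [← smul_set_compl]; exact h.2.2.2.smul_set⟩

theorem cob_submod (Y S T : Set Γ) (hS : (cob Y S).Finite) (hT : (cob Y T).Finite) :
    (cob Y (S ∩ T)).ncard + (cob Y (S ∪ T)).ncard ≤ (cob Y S).ncard + (cob Y T).ncard ∧
    ∀ x y, y ∈ Y → x ∈ S \ T → x * y ∈ T \ S →
      (cob Y (S ∩ T)).ncard + (cob Y (S ∪ T)).ncard < (cob Y S).ncard + (cob Y T).ncard := by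
  have h1 : cob Y (S ∩ T) ∪ cob Y (S ∪ T) ⊆ cob Y S ∪ cob Y T := by
    intro p; simp only [cob, mem_ofPred_eq, mem_union, mem_inter_iff]; tauto
  have h2 : cob Y (S ∩ T) ∩ cob Y (S ∪ T) ⊆ cob Y S ∩ cob Y T := by
    intro p; simp only [cob, mem_ofPred_eq, mem_union, mem_inter_iff]; tauto
  have hf := (hS.union hT).subset h1
  rw [← ncard_union_add_ncard_inter _ _ (hf.subset subset_union_left) (hf.subset subset_union_right),
    ← ncard_union_add_ncard_inter _ _ hS hT]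
  have h3 := ncard_le_ncard h1 (hS.union hT)
  have h4 := ncard_le_ncard h2 (hS.inter_of_left _)
  refine ⟨by omega, fun x y hy hx hxy => ?_⟩
  have h5 := ncard_lt_ncard (s := cob Y (S ∩ T) ∩ cob Y (S ∪ T)) (t := cob Y S ∩ cob Y T)
    ⟨h2, fun h => by
      have : (x, y) ∈ cob Y S ∩ cob Y T := by
        simp only [cob, mem_ofPred_eq, mem_inter_iff]; have := hx.1; have := hx.2
        have := hxy.1; have := hxy.2; tauto
      have h6 := (h this).1
      simp only [cob, mem_ofPred_eq, mem_inter_iff] at h6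
      have := hx.2; have := hxy.2; tauto⟩ (hS.inter_of_left _)
  omega

theorem finite_narrow {Y : Set Γ} (hYf : Y.Finite) (hY : Subgroup.closure Y = ⊤) {κ : ℕ}
    (hκ : ∀ S, Nontriv A S → κ ≤ (cob Y S).ncard) (p₀ : Γ × Γ) :
    {S | Nontriv A S ∧ (cob Y S).ncard = κ ∧ p₀ ∈ cob Y S}.Finite := by
  by_contra hinf
  set N := {S | Nontriv A S ∧ (cob Y S).ncard = κ ∧ p₀ ∈ cob Y S} with hN
  have hnb : (cofinite ⊓ 𝓟 N).NeBot := cofinite_inf_principal_neBot_iff.2 hinf
  let U : Ultrafilter (Set Γ) := Ultrafilter.of (cofinite ⊓ 𝓟 N)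
  have hU : (U : Filter (Set Γ)) ≤ cofinite ⊓ 𝓟 N := Ultrafilter.of_le _
  have hUN : ∀ᶠ S in (U : Filter (Set Γ)), S ∈ N := (hU.trans inf_le_right) (mem_principal_self N)
  let L : Set Γ := {x | ∀ᶠ S in (U : Filter (Set Γ)), x ∈ S}
  have hL : ∀ x, ∀ᶠ S in (U : Filter (Set Γ)), (x ∈ S ↔ x ∈ L) := by
    intro x
    by_cases hx : x ∈ L
    · exact Eventually.mono hx (fun S h => iff_of_true h hx)
    · exact (Ultrafilter.eventually_not.2 hx).mono (fun S h => iff_of_false h hx)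
  have hLp : ∀ p, ∀ᶠ S in (U : Filter (Set Γ)), (p ∈ cob Y S ↔ p ∈ cob Y L) := by
    intro p
    filter_upwards [hL p.1, hL (p.1 * p.2)] with S h1 h2
    simp only [cob, mem_ofPred_eq, h1, h2]
  have hsub : ∀ D : Set (Γ × Γ), D.Finite → D ⊆ cob Y L →
      ∀ᶠ S in (U : Filter (Set Γ)), D ⊆ cob Y S := by
    intro D hD hDL
    have := (eventually_all_finite hD).2 (fun p _ => hLp p)
    exact this.mono (fun S h p hp => (h p hp).2 (hDL hp))
  have hfin : (cob Y L).Finite := by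
    by_contra h
    obtain ⟨D, hD, hDf, hDc⟩ := Set.Infinite.exists_subset_ncard_eq h (κ + 1)
    obtain ⟨S, h1, h2⟩ := ((hsub D hDf hD).and hUN).exists
    have := ncard_le_ncard h1 (h2.1.1.finite_cob hYf)
    have := h2.2.1
    omega
  have hp₀ : p₀ ∈ cob Y L := by
    obtain ⟨S, h1, h2⟩ := ((hLp p₀).and hUN).exists
    exact h1.1 h2.2.2
  have hInv : Inv A L := by
    intro x a ha hx
    filter_upwards [hx, hUN] with S h1 h2 using h2.1.2.1 x a ha h1
  have hAI : AI L := ai_of_finite_cob hY hfin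
  have hne : ∀ᶠ S in (U : Filter (Set Γ)), S ∉ ({L, Lᶜ} : Set (Set Γ)) :=
    (hU.trans inf_le_left) (Finite.compl_mem_cofinite (toFinite _))
  obtain ⟨S, ⟨h1, h2⟩, h3⟩ := (((hsub _ hfin subset_rfl).and hUN).and hne).exists
  have hSf := h2.1.1.finite_cob hYf
  have hT : cob Y (S ∆ L) = cob Y S \ cob Y L := by
    rw [cob_symmDiff, symmDiff_of_ge h1]
  have hlt : (cob Y (S ∆ L)).ncard < κ := by
    rw [hT, ← h2.2.1]
    exact ncard_lt_ncard ⟨sdiff_subset, fun h => (h h2.2.2).2 hp₀⟩ hSf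
  have hLnt : Nontriv A L := by
    refine ⟨hAI, hInv, ?_⟩
    have h4 : ¬ ((S ∆ L).Infinite ∧ (S ∆ L)ᶜ.Infinite) := fun h =>
      absurd (hκ _ ⟨h2.1.1.symmDiff hAI, h2.1.2.1.symmDiff hInv, h⟩) (not_le.2 hlt)
    rw [not_and_or, not_infinite, not_infinite] at h4
    rcases h4 with h4 | h4
    · exact ⟨fun h => h2.1.2.2.1 ((h.union h4).subset (fun x hx => by
          simp only [mem_union, mem_symmDiff]; tauto)),
        fun h => h2.1.2.2.2 ((h.union h4).subset (fun x hx => by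
          simp only [mem_union, mem_symmDiff, mem_compl_iff] at hx ⊢; tauto))⟩
    · exact ⟨fun h => h2.1.2.2.2 ((h.union h4).subset (fun x hx => by
          simp only [mem_union, mem_symmDiff, mem_compl_iff] at hx ⊢; tauto)),
        fun h => h2.1.2.2.1 ((h.union h4).subset (fun x hx => by
          simp only [mem_union, mem_symmDiff, mem_compl_iff] at hx ⊢; tauto))⟩
  have heq : cob Y L = cob Y S :=
    eq_of_subset_of_ncard_le h1 (by rw [h2.2.1]; exact hκ L hLnt) hSf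
  rw [heq, sdiff_self] at hT
  apply h3
  rcases eq_of_cob_empty hY hT with h | h
  · exact Or.inl (symmDiff_eq_bot.1 h)
  · refine Or.inr ?_
    ext x
    have : x ∈ S ∆ L := by rw [h]; trivial
    simp only [mem_symmDiff, mem_compl_iff] at this ⊢
    tauto

theorem exists_extreme {ι : Type} (𝓜 : Set (ι → ℕ)) (hf : 𝓜.Finite) (hne : 𝓜.Nonempty) :
    ∃ m ∈ 𝓜, ∀ p ∈ 𝓜, ∀ q ∈ 𝓜, (∀ g, p g + q g ≤ 2 * m g) → ∀ g, p g + q g = 2 * m g := by
  classical
  have h : ∀ t : (ι → ℕ) × (ι → ℕ) × (ι → ℕ), ∃ B : Finset ι,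
      (∀ g ∈ B, t.1 g + t.2.1 g = 2 * t.2.2 g) → ∀ g, t.1 g + t.2.1 g = 2 * t.2.2 g := by
    intro t
    by_cases h : ∀ g, t.1 g + t.2.1 g = 2 * t.2.2 g
    · exact ⟨∅, fun _ => h⟩
    · push Not at h
      obtain ⟨g, hg⟩ := h
      exact ⟨{g}, fun h => absurd (h g (by simp)) hg⟩
  choose B hB using h
  let F := (hf.toFinset ×ˢ hf.toFinset ×ˢ hf.toFinset).biUnion B
  obtain ⟨m, hm, hmin⟩ := exists_min_image 𝓜 (fun m => ∑ g ∈ F, m g) hf hne
  refine ⟨m, hm, fun p hp q hq hle => hB (p, q, m) (fun g hg => ?_)⟩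
  have hgF : g ∈ F := Finset.mem_biUnion.2 ⟨(p, q, m), by simp [hp, hq, hm], hg⟩
  by_contra hne'
  have h1 : ∑ g ∈ F, (p g + q g) < ∑ g ∈ F, 2 * m g :=
    Finset.sum_lt_sum (fun g _ => hle g) ⟨g, hgF, lt_of_le_of_ne (hle g) hne'⟩
  rw [Finset.sum_add_distrib, ← Finset.mul_sum] at h1
  have := hmin p hp
  have := hmin q hq
  omega

theorem exists_nested (hfg : Group.FG Γ) {S₀ : Set Γ} (h₀ : Nontriv A S₀) :
    ∃ S, Nontriv A S ∧ ∀ g : Γ, S ⊆ g • S ∨ S ⊆ (g • S)ᶜ ∨ Sᶜ ⊆ g • S ∨ Sᶜ ⊆ (g • S)ᶜ := by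
  classical
  obtain ⟨Y, hY, hYf⟩ := Group.fg_iff.1 hfg
  have hex : ∃ k, ∃ S, Nontriv A S ∧ (cob Y S).ncard = k := ⟨_, S₀, h₀, rfl⟩
  set κ := Nat.find hex
  have hκ : ∀ S, Nontriv A S → κ ≤ (cob Y S).ncard := fun S hS => Nat.find_min' hex ⟨S, hS, rfl⟩
  let μ : Set Γ → Γ → ℕ := fun S g => (cob {g} S).ncard
  let 𝓜 : Set (Γ → ℕ) := μ '' {S | Nontriv A S ∧ (cob Y S).ncard = κ}
  have hfin : 𝓜.Finite := by
    refine ((hYf.biUnion (fun y _ => finite_narrow hYf hY hκ (1, y))).image μ).subset ?_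
    rintro _ ⟨S, hS, rfl⟩
    have hne : (cob Y S).Nonempty := by
      rw [nonempty_iff_ne_empty]
      intro h
      rcases eq_of_cob_empty hY h with h | h
      · exact hS.1.2.2.1 (by simp [h])
      · exact hS.1.2.2.2 (by simp [h])
    obtain ⟨p, hp⟩ := hne
    refine ⟨p.1⁻¹ • S, mem_biUnion hp.1 ⟨hS.1.smul _, by rw [ncard_cob_smul, hS.2], ?_⟩, ?_⟩
    · rw [cob_smul]; exact ⟨p, hp, by simp⟩
    · funext g; exact ncard_cob_smul _ _ _
  obtain ⟨S₁, hS₁⟩ := Nat.find_spec hex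
  obtain ⟨_, ⟨S, hS, rfl⟩, hext⟩ := exists_extreme 𝓜 hfin ⟨_, S₁, hS₁, rfl⟩
  have key : ∀ T, Nontriv A T → (cob Y T).ncard = κ → μ T = μ S → (S ∩ T).Infinite →
      (S ∪ T)ᶜ.Infinite → S ⊆ T ∨ T ⊆ S := by
    intro T hT hTκ hμ h1 h2
    have n1 : Nontriv A (S ∩ T) := ⟨hS.1.1.inter hT.1, hS.1.2.1.inter hT.2.1, h1,
      h2.mono (compl_subset_compl.2 (inter_subset_left.trans subset_union_left))⟩
    have n2 : Nontriv A (S ∪ T) := ⟨hS.1.1.union hT.1, hS.1.2.1.union hT.2.1,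
      h1.mono (inter_subset_left.trans subset_union_left), h2⟩
    have h3 := (cob_submod Y S T (hS.1.1.finite_cob hYf) (hT.1.finite_cob hYf)).1
    have h4 := hκ _ n1
    have h5 := hκ _ n2
    have h6 := hS.2
    have hsub := fun g => cob_submod {g} S T (hS.1.1.finite_cob (finite_singleton g))
      (hT.1.finite_cob (finite_singleton g))
    have h7 := hext _ ⟨_, ⟨n1, by omega⟩, rfl⟩ _ ⟨_, ⟨n2, by omega⟩, rfl⟩ (fun g => by
      have := (hsub g).1
      have := congrFun hμ g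
      simp only [μ] at *
      omega)
    by_contra hcon
    rw [not_or, not_subset, not_subset] at hcon
    obtain ⟨⟨x, hx⟩, ⟨y, hy⟩⟩ := hcon
    have h8 := (hsub (x⁻¹ * y)).2 x (x⁻¹ * y) rfl hx (by simpa using hy)
    have h9 := h7 (x⁻¹ * y)
    have := congrFun hμ (x⁻¹ * y)
    simp only [μ] at *
    omega
  refine ⟨S, hS.1, fun g => ?_⟩
  have hT := hS.1.smul g
  have k1 := key (g • S) hT (by rw [ncard_cob_smul, hS.2]) (funext fun _ => ncard_cob_smul _ _ _)
  have k2 := key (g • S)ᶜ hT.compl (by rw [cob_compl, ncard_cob_smul, hS.2])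
    (funext fun _ => by simp only [μ]; rw [cob_compl, ncard_cob_smul])
  set T := g • S
  by_cases c1 : (S ∩ T).Infinite ∧ (S ∪ T)ᶜ.Infinite
  · rcases k1 c1.1 c1.2 with h | h
    · exact Or.inl h
    · exact Or.inr (Or.inr (Or.inr (compl_subset_compl.2 h)))
  · have c2 : (S ∩ Tᶜ).Infinite ∧ (S ∪ Tᶜ)ᶜ.Infinite := by
      rw [not_and_or, not_infinite, not_infinite] at c1
      rcases c1 with c1 | c1
      · exact ⟨fun h => hS.1.2.2.1 ((c1.union h).subset (fun x hx => by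
            simp only [mem_union, mem_inter_iff, mem_compl_iff]; tauto)),
          fun h => hT.2.2.1 ((c1.union h).subset (fun x hx => by
            simp only [mem_union, mem_inter_iff, mem_compl_iff]; tauto))⟩
      · exact ⟨fun h => hT.2.2.2 ((c1.union h).subset (fun x hx => by
            simp only [mem_union, mem_inter_iff, mem_compl_iff] at hx ⊢; tauto)),
          fun h => hS.1.2.2.2 ((c1.union h).subset (fun x hx => by
            simp only [mem_union, mem_compl_iff] at hx ⊢; tauto))⟩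
    rcases k2 c2.1 c2.2 with h | h
    · exact Or.inr (Or.inl h)
    · exact Or.inr (Or.inr (Or.inl (compl_subset_comm.1 h)))

end Pool.Agent.Shared.StallingsSwan
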