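import Mathlib
import Pool.Agent.Shared.StallingsSwan.Nested

set_option autoImplicit false

/-!
From a nested almost invariant set to a free product decomposition: the relative form of the
theorem of Stallings for torsion-free groups.
-/

namespace Pool.Agent.Shared.StallingsSwan

open Set
open scoped Pointwise

variable {Γ : Type} [Group Γ]

/-- The properties of the family of half spaces. -/
structure Half (𝓗 : Set (Set Γ)) : Prop where
  compl : ∀ W ∈ 𝓗, Wᶜ ∈ 𝓗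
  smul : ∀ W ∈ 𝓗, ∀ g : Γ, g • W ∈ 𝓗
  nested : ∀ U ∈ 𝓗, ∀ W ∈ 𝓗, U ⊆ W ∨ U ⊆ Wᶜ ∨ Uᶜ ⊆ W ∨ Uᶜ ⊆ Wᶜ
  nonempty : ∀ W ∈ 𝓗, W.Nonempty
  finite : ∀ x y, {W ∈ 𝓗 | x ∈ W ∧ y ∉ W}.Finite
  free : ∀ W ∈ 𝓗, ∀ g : Γ, g • W = W → g = 1
  free' : ∀ W ∈ 𝓗, ∀ g : Γ, g • W ≠ Wᶜ
  trans : ∀ U ∈ 𝓗, ∀ W ∈ 𝓗, ∃ g : Γ, W = g • U ∨ W = g • Uᶜ
  small : ∀ U ∈ 𝓗, ∃ W ∈ 𝓗, W ⊂ U

variable {𝓗 : Set (Set Γ)}

/-- `W` is a maximal half space strictly inside `U`. -/
def IsMaxIn (𝓗 : Set (Set Γ)) (U W : Set Γ) : Prop :=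
  W ∈ 𝓗 ∧ W ⊂ U ∧ ∀ W' ∈ 𝓗, W ⊆ W' → W' ⊂ U → W' = W

/-- The half spaces pointing away from the terminal vertex of `U`. -/
def star (𝓗 : Set (Set Γ)) (U : Set Γ) : Set (Set Γ) := {W | W = Uᶜ ∨ IsMaxIn 𝓗 U W}

theorem Half.finite_between (h : Half 𝓗) {U W : Set Γ} (hU : U ∈ 𝓗) (hW : W ∈ 𝓗) :
    {W' ∈ 𝓗 | W ⊆ W' ∧ W' ⊆ U}.Finite := by
  obtain ⟨x, hx⟩ := h.nonempty W hW
  obtain ⟨y, hy⟩ := h.nonempty _ (h.compl U hU)
  exact (h.finite x y).subset (fun W' hW' => ⟨hW'.1, hW'.2.1 hx, fun h1 => hy (hW'.2.2 h1)⟩)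

theorem Half.exists_max (h : Half 𝓗) {U W : Set Γ} (hU : U ∈ 𝓗) (hW : W ∈ 𝓗) (hWU : W ⊂ U) :
    ∃ W', IsMaxIn 𝓗 U W' ∧ W ⊆ W' := by
  have hf : {W' ∈ 𝓗 | W ⊆ W' ∧ W' ⊂ U}.Finite :=
    (h.finite_between hU hW).subset (fun W' hW' => ⟨hW'.1, hW'.2.1, hW'.2.2.subset⟩)
  obtain ⟨W', hW'⟩ := hf.exists_maximal ⟨W, hW, subset_rfl, hWU⟩
  exact ⟨W', ⟨hW'.1.1, hW'.1.2.2, fun Z hZ h1 h2 =>
    subset_antisymm (hW'.2 ⟨hZ, hW'.1.2.1.trans h1, h2⟩ h1) h1⟩, hW'.1.2.1⟩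

theorem Half.not_both (h : Half 𝓗) {U W : Set Γ} (hU : U ∈ 𝓗) (h1 : W ⊆ U) (h2 : Wᶜ ⊆ U) :
    False := by
  obtain ⟨y, hy⟩ := h.nonempty _ (h.compl U hU)
  by_cases hyW : y ∈ W
  exacts [hy (h1 hyW), hy (h2 hyW)]

theorem Half.not_sub (h : Half 𝓗) {U W : Set Γ} (hW : W ∈ 𝓗) (h1 : W ⊆ U) (h2 : W ⊆ Uᶜ) :
    False := by
  obtain ⟨y, hy⟩ := h.nonempty _ hW
  exact h2 hy (h1 hy)

theorem Half.disjoint_star (h : Half 𝓗) {U W W' : Set Γ} (hU : U ∈ 𝓗) (hW : W ∈ star 𝓗 U)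
    (hW' : W' ∈ star 𝓗 U) (hne : W ≠ W') : W ⊆ W'ᶜ := by
  rcases hW with rfl | hW <;> rcases hW' with rfl | hW'
  · exact absurd rfl hne
  · exact compl_subset_compl.2 hW'.2.1.subset
  · rw [compl_compl]; exact hW.2.1.subset
  · rcases h.nested W hW.1 W' hW'.1 with h1 | h1 | h1 | h1
    · exact absurd (hW.2.2 W' hW'.1 h1 hW'.2.1).symm hne
    · exact h1
    · exact (h.not_both hU hW.2.1.subset (h1.trans hW'.2.1.subset)).elim
    · exact absurd (hW'.2.2 W hW.1 (compl_subset_compl.1 h1) hW.2.1) hne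

theorem Half.max_symm (h : Half 𝓗) {U W : Set Γ} (hU : U ∈ 𝓗) (hW : IsMaxIn 𝓗 U W) :
    IsMaxIn 𝓗 Wᶜ Uᶜ := by
  refine ⟨h.compl U hU, compl_lt_compl_iff_lt.2 hW.2.1, fun Z hZ h1 h2 => ?_⟩
  by_contra hne
  have h3 : Zᶜ ⊂ U := ⟨compl_subset_comm.1 h1, fun h4 =>
    hne (subset_antisymm (subset_compl_comm.1 h4) h1)⟩
  have h4 := hW.2.2 Zᶜ (h.compl Z hZ) (subset_compl_comm.1 h2.subset) h3
  exact h2.ne (by rw [← h4, compl_compl])

theorem Half.star_subset (h : Half 𝓗) {U W : Set Γ} (hU : U ∈ 𝓗) (hW : IsMaxIn 𝓗 U W) :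
    star 𝓗 U ⊆ star 𝓗 Wᶜ := by
  intro Z hZ
  by_cases hZW : Z = W
  · exact Or.inl (by rw [hZW, compl_compl])
  have hsub := h.disjoint_star hU hZ (Or.inr hW) hZW
  rcases hZ with rfl | hZ
  · exact Or.inr (h.max_symm hU hW)
  refine Or.inr ⟨hZ.1, ⟨hsub, fun h1 => h.not_both hU hW.2.1.subset (h1.trans hZ.2.1.subset)⟩,
    fun Z' hZ' h1 h2 => ?_⟩
  rcases h.nested Z' hZ' U hU with h3 | h3 | h3 | h3
  · refine hZ.2.2 Z' hZ' h1 ⟨h3, fun h4 => ?_⟩
    exact h.not_sub hW.1 subset_rfl ((hW.2.1.subset.trans h4).trans h2.subset)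
  · exact (h.not_sub hZ.1 hZ.2.1.subset (h1.trans h3)).elim
  · have := (h.max_symm hU hW).2.2 Z' hZ' (compl_subset_comm.1 h3) h2
    exact (h.not_sub hZ.1 hZ.2.1.subset (this ▸ h1)).elim
  · exact (h.not_sub hW.1 subset_rfl
      ((hW.2.1.subset.trans (compl_subset_compl.1 h3)).trans h2.subset)).elim

theorem Half.star_eq (h : Half 𝓗) {U W : Set Γ} (hU : U ∈ 𝓗) (hW : W ∈ star 𝓗 U) :
    star 𝓗 Wᶜ = star 𝓗 U := by
  rcases hW with rfl | hW
  · rw [compl_compl]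
  · refine subset_antisymm ?_ (h.star_subset hU hW)
    simpa using h.star_subset (h.compl W hW.1) (h.max_symm hU hW)

theorem smul_ssubset {U W : Set Γ} (g : Γ) : g • W ⊂ g • U ↔ W ⊂ U := by
  simp only [ssubset_def, smul_set_subset_smul_set_iff]

theorem Half.max_smul (h : Half 𝓗) {U W : Set Γ} (hW : IsMaxIn 𝓗 U W) (g : Γ) :
    IsMaxIn 𝓗 (g • U) (g • W) := by
  refine ⟨h.smul W hW.1 g, (smul_ssubset g).2 hW.2.1, fun Z hZ h1 h2 => ?_⟩
  have := hW.2.2 (g⁻¹ • Z) (h.smul Z hZ _) (by rwa [subset_smul_set_iff, inv_inv])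
    (by rwa [← smul_ssubset g, smul_inv_smul])
  rw [← this, smul_inv_smul]

theorem Half.star_smul (h : Half 𝓗) {U W : Set Γ} (hW : W ∈ star 𝓗 U) (g : Γ) :
    g • W ∈ star 𝓗 (g • U) := by
  rcases hW with rfl | hW
  · exact Or.inl smul_set_compl
  · exact Or.inr (h.max_smul hW g)

theorem Half.smul_mem_star (h : Half 𝓗) {U W : Set Γ} (hU : U ∈ 𝓗) {g : Γ}
    (hg : g • Uᶜ ∈ star 𝓗 U) (hW : W ∈ star 𝓗 U) : g • W ∈ star 𝓗 U := by
  have h1 := h.star_eq hU hg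
  rw [smul_set_compl, compl_compl] at h1
  exact h1 ▸ h.star_smul hW g

/-- The stabiliser of the terminal vertex of `U`. -/
def Half.stab (h : Half 𝓗) {U : Set Γ} (hU : U ∈ 𝓗) : Subgroup Γ where
  carrier := {g | g • Uᶜ ∈ star 𝓗 U}
  one_mem' := Or.inl (one_smul _ _)
  mul_mem' := fun {a b} ha hb => by
    change (a * b) • Uᶜ ∈ star 𝓗 U
    rw [mul_smul]
    exact h.smul_mem_star hU ha hb
  inv_mem' := fun {a} ha => by
    change a⁻¹ • Uᶜ ∈ star 𝓗 U
    have h1 := h.star_eq hU ha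
    rw [smul_set_compl, compl_compl] at h1
    have h2 : Uᶜ ∈ star 𝓗 (a • U) := by rw [h1]; exact Or.inl rfl
    simpa using h.star_smul h2 a⁻¹

theorem Half.mem_stab (h : Half 𝓗) {U : Set Γ} (hU : U ∈ 𝓗) {g : Γ} :
    g ∈ h.stab hU ↔ g • Uᶜ ∈ star 𝓗 U := Iff.rfl

theorem Half.eq_top (h : Half 𝓗) {S : Set Γ} (hS : S ∈ 𝓗) (K : Subgroup Γ)
    (hK : ∀ U V, (U = S ∨ U = Sᶜ) → (V = S ∨ V = Sᶜ) → ∀ g : Γ, IsMaxIn 𝓗 V (g • U) → g ∈ K) :
    K = ⊤ := by
  have hmem : ∀ U, (U = S ∨ U = Sᶜ) → U ∈ 𝓗 := by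
    rintro U (rfl | rfl)
    exacts [hS, h.compl S hS]
  have key : ∀ n, ∀ (g : Γ) U V, (U = S ∨ U = Sᶜ) → (V = S ∨ V = Sᶜ) → g • U ⊆ V →
      {W ∈ 𝓗 | g • U ⊆ W ∧ W ⊆ V}.ncard = n → g ∈ K := by
    intro n
    induction n using Nat.strong_induction_on with
    | h n ih =>
      intro g U V hU hV hsub hn
      by_cases heq : g • U = V
      · have : g = 1 := by
          rcases hU with rfl | rfl <;> rcases hV with rfl | rfl
          · exact h.free _ hS g heq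
          · exact absurd heq (h.free' _ hS g)
          · exact absurd (heq.trans (compl_compl _).symm) (h.free' _ (h.compl _ hS) g)
          · exact h.free _ (h.compl _ hS) g heq
        rw [this]; exact K.one_mem
      obtain ⟨W, hW, hUW⟩ := h.exists_max (hmem V hV) (h.smul U (hmem U hU) g)
        (ssubset_of_subset_of_ne hsub heq)
      obtain ⟨a, V', hV', rfl⟩ : ∃ (a : Γ) (V' : Set Γ), (V' = S ∨ V' = Sᶜ) ∧ W = a • V' := by
        obtain ⟨a, ha | ha⟩ := h.trans S hS W hW.1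
        exacts [⟨a, S, Or.inl rfl, ha⟩, ⟨a, Sᶜ, Or.inr rfl, ha⟩]
      have ha := hK V' V hV' hV a hW
      have h1 : (a⁻¹ * g) • U ⊆ V' := by rwa [mul_smul, smul_set_subset_iff_subset_inv_smul_set, inv_inv]
      have h2 := ih _ ?_ (a⁻¹ * g) U V' hU hV' h1 rfl
      · simpa using K.mul_mem ha h2
      rw [← hn, ← ncard_image_of_injective _ (MulAction.injective a)]
      refine ncard_lt_ncard ⟨?_, fun h3 => ?_⟩
        (h.finite_between (hmem V hV) (h.smul U (hmem U hU) g))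
      · rintro _ ⟨Z, hZ, rfl⟩
        refine ⟨h.smul Z hZ.1 a, ?_, (smul_set_mono hZ.2.2).trans hW.2.1.subset⟩
        have := smul_set_mono (a := a) hZ.2.1
        rwa [smul_smul, mul_inv_cancel_left] at this
      · obtain ⟨Z, hZ, h4⟩ := h3 (⟨hmem V hV, hsub, subset_rfl⟩ : V ∈ {W ∈ 𝓗 | g • U ⊆ W ∧ W ⊆ V})
        exact hW.2.1.2 (h4 ▸ smul_set_mono hZ.2.2)
  rw [eq_top_iff]
  intro g _
  rcases h.nested (g • S) (h.smul S hS g) S hS with h1 | h1 | h1 | h1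
  · exact key _ g S S (Or.inl rfl) (Or.inl rfl) h1 rfl
  · exact key _ g S Sᶜ (Or.inl rfl) (Or.inr rfl) h1 rfl
  · exact key _ g Sᶜ S (Or.inr rfl) (Or.inl rfl) (by rwa [smul_set_compl]) rfl
  · exact key _ g Sᶜ Sᶜ (Or.inr rfl) (Or.inr rfl) (by rwa [smul_set_compl]) rfl

/-- The universal property of a free product of two subgroups. -/
def Univ (C₁ C₂ : Subgroup Γ) : Prop :=
  ∀ (M : Type) [Group M] (f₁ : C₁ →* M) (f₂ : C₂ →* M),
    ∃ F : Γ →* M, (∀ x : C₁, F x = f₁ x) ∧ ∀ x : C₂, F x = f₂ x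

theorem univ_of_ping_pong {C₁ C₂ : Subgroup Γ} (hsup : C₁ ⊔ C₂ = ⊤) [Infinite C₂]
    {X₁ X₂ : Set Γ} (h₁ : X₁.Nonempty) (h₂ : X₂.Nonempty) (hd : Disjoint X₁ X₂)
    (p₁ : ∀ g ∈ C₁, g ≠ 1 → g • X₂ ⊆ X₁) (p₂ : ∀ g ∈ C₂, g ≠ 1 → g • X₁ ⊆ X₂) : Univ C₁ C₂ := by
  let H : Bool → Subgroup Γ := fun b => cond b C₁ C₂
  let f : ∀ b, H b →* Γ := fun b => (H b).subtype
  have hinj : Function.Injective (Monoid.CoprodI.lift f) := by
    refine Monoid.CoprodI.lift_injective_of_ping_pong f (Or.inr ⟨false, ?_⟩)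
      (fun b => cond b X₁ X₂) ?_ ?_ ?_
    · have : Infinite (H false) := ‹Infinite C₂›
      exact (Cardinal.natCast_le_aleph0 (n := 3)).trans (Cardinal.aleph0_le_mk _)
    · rintro (_ | _); exacts [h₂, h₁]
    · rintro (_ | _) (_ | _) hne
      exacts [absurd rfl hne, hd.symm, hd, absurd rfl hne]
    · rintro (_ | _) (_ | _) hne g hg
      exacts [absurd rfl hne, p₂ g.1 g.2 (fun h => hg (Subtype.ext h)),
        p₁ g.1 g.2 (fun h => hg (Subtype.ext h)), absurd rfl hne]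
  have hsurj : Function.Surjective (Monoid.CoprodI.lift f) := by
    rw [← MonoidHom.range_eq_top, eq_top_iff, ← hsup]
    refine sup_le (fun x hx => ⟨Monoid.CoprodI.of (i := true) ⟨x, hx⟩, ?_⟩)
      (fun x hx => ⟨Monoid.CoprodI.of (i := false) ⟨x, hx⟩, ?_⟩)
    · rw [Monoid.CoprodI.lift_of]; rfl
    · rw [Monoid.CoprodI.lift_of]; rfl
  intro M _ f₁ f₂
  let e := MulEquiv.ofBijective _ ⟨hinj, hsurj⟩
  let φ : ∀ b, H b →* M := fun b => match b with
    | true => f₁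
    | false => f₂
  refine ⟨(Monoid.CoprodI.lift φ).comp e.symm.toMonoidHom, fun x => ?_, fun x => ?_⟩
  · have : e.symm x = Monoid.CoprodI.of (M := fun b => H b) (i := true) x := by
      rw [MulEquiv.symm_apply_eq]; exact (Monoid.CoprodI.lift_of f (i := true) x).symm
    simp only [MonoidHom.comp_apply, MulEquiv.coe_toMonoidHom, this]
    exact Monoid.CoprodI.lift_of φ (i := true) x
  · have : e.symm x = Monoid.CoprodI.of (M := fun b => H b) (i := false) x := by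
      rw [MulEquiv.symm_apply_eq]; exact (Monoid.CoprodI.lift_of f (i := false) x).symm
    simp only [MonoidHom.comp_apply, MulEquiv.coe_toMonoidHom, this]
    exact Monoid.CoprodI.lift_of φ (i := false) x

theorem infinite_of_ne_bot (htf : ∀ g : Γ, IsOfFinOrder g → g = 1) {C : Subgroup Γ} (hC : C ≠ ⊥) :
    Infinite C := by
  by_contra h
  rw [not_infinite_iff_finite] at h
  refine hC ((Subgroup.eq_bot_iff_forall _).2 (fun x hx => htf x ?_))
  exact (Submonoid.isOfFinOrder_coe (H := C.toSubmonoid) (x := ⟨x, hx⟩)).2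
    (isOfFinOrder_of_finite (⟨x, hx⟩ : C))

theorem Half.split (h : Half 𝓗) (htf : ∀ g : Γ, IsOfFinOrder g → g = 1) {S : Set Γ} (hS : S ∈ 𝓗) :
    ∃ C₂ : Subgroup Γ, h.stab hS ⊔ C₂ = ⊤ ∧ C₂ ≠ ⊥ ∧
      (h.stab hS ≠ ⊥ ∨ ∃ t, C₂ = Subgroup.zpowers t) ∧ Univ (h.stab hS) C₂ := by
  have hS' := h.compl S hS
  by_cases hc : ∃ t : Γ, IsMaxIn 𝓗 S (t • S)
  · obtain ⟨t, ht⟩ := hc
    have ht1 : t ≠ 1 := by
      rintro rfl
      exact ht.2.1.ne (one_smul _ _)
    have hne : Subgroup.zpowers t ≠ ⊥ := by simpa using ht1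
    have hst : star 𝓗 (t • Sᶜ) = star 𝓗 S := by
      rw [smul_set_compl]; exact h.star_eq hS (Or.inr ht)
    have hb : ∀ g : Γ, IsMaxIn 𝓗 S (g • S) → g ∈ h.stab hS ⊔ Subgroup.zpowers t := by
      intro g hg
      have h1 : star 𝓗 (g • Sᶜ) = star 𝓗 S := by
        rw [smul_set_compl]; exact h.star_eq hS (Or.inr hg)
      have h2 : Sᶜ ∈ star 𝓗 (t • Sᶜ) := by rw [hst]; exact Or.inl rfl
      have h3 := h.star_smul h2 (g * t⁻¹)
      rw [smul_smul, inv_mul_cancel_right, h1] at h3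
      have h4 := Subgroup.mul_mem_sup ((h.mem_stab hS).2 h3) (Subgroup.mem_zpowers t)
      simpa using h4
    have htK : t ∈ h.stab hS ⊔ Subgroup.zpowers t :=
      Subgroup.mem_sup_right (Subgroup.mem_zpowers t)
    have hsup : h.stab hS ⊔ Subgroup.zpowers t = ⊤ := by
      refine h.eq_top hS _ ?_
      rintro U V (rfl | rfl) (rfl | rfl) g hg
      · exact hb g hg
      · have h1 := h.star_smul (Or.inr hg) t
        rw [hst, smul_smul] at h1
        rcases h1 with h1 | h1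
        · exact absurd h1 (h.free' _ hS _)
        · simpa using Subgroup.mul_mem _ (Subgroup.inv_mem _ htK) (hb _ h1)
      · exact Subgroup.mem_sup_left (Or.inr hg)
      · have h1 := h.star_smul (Or.inr hg) t
        rw [hst, smul_smul] at h1
        simpa using Subgroup.mul_mem _ (Subgroup.inv_mem _ htK)
          (Subgroup.mem_sup_left ((h.mem_stab hS).2 h1))
    refine ⟨_, hsup, hne, Or.inr ⟨t, rfl⟩, ?_⟩
    have := infinite_of_ne_bot htf hne
    have hpow : ∀ k : ℕ, t ^ (k + 1) • S ⊆ t • S := by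
      intro k
      induction k with
      | zero => simp
      | succ k ih => rw [pow_succ, mul_smul]; exact (smul_set_mono ht.2.1.subset).trans ih
    have hinv : t⁻¹ • Sᶜ ⊆ Sᶜ := by
      rw [smul_set_compl, compl_subset_compl, subset_smul_set_iff, inv_inv]
      exact ht.2.1.subset
    have hpow' : ∀ k : ℕ, t⁻¹ ^ (k + 1) • t • Sᶜ ⊆ Sᶜ := by
      intro k
      induction k with
      | zero => simp
      | succ k ih => rw [pow_succ', mul_smul]; exact (smul_set_mono ih).trans hinv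
    refine univ_of_ping_pong hsup (X₁ := (Sᶜ ∪ t • S)ᶜ) (X₂ := Sᶜ ∪ t • S) ?_
      ((h.nonempty _ hS').mono subset_union_left) disjoint_compl_left ?_ ?_
    · obtain ⟨x, hx1, hx2⟩ := exists_of_ssubset ht.2.1
      exact ⟨x, fun hx => hx.elim (fun h1 => h1 hx1) hx2⟩
    · intro g hg hg1
      have a1 : Sᶜ ∈ star 𝓗 S := Or.inl rfl
      have a2 : t • S ∈ star 𝓗 S := Or.inr ht
      have b1 := h.smul_mem_star hS hg a1
      have b2 := h.smul_mem_star hS hg a2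
      rw [smul_set_union, compl_union]
      refine union_subset (subset_inter (h.disjoint_star hS b1 a1 fun e => hg1 (h.free _ hS' g e))
        (h.disjoint_star hS b1 a2 fun e => ?_)) (subset_inter (h.disjoint_star hS b2 a1 fun e => ?_)
        (h.disjoint_star hS b2 a2 fun e => hg1 (h.free _ (h.smul S hS t) g e)))
      · refine h.free' _ hS' (t⁻¹ * g) ?_
        rw [mul_smul, e, inv_smul_smul, compl_compl]
      · exact h.free' _ hS (g * t) (by rw [mul_smul, e])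
    · intro g hg hg1
      obtain ⟨k, rfl⟩ := Subgroup.mem_zpowers_iff.1 hg
      rw [compl_union, compl_compl]
      rcases lt_trichotomy k 0 with hk | rfl | hk
      · obtain ⟨m, rfl⟩ := Int.eq_negSucc_of_lt_zero hk
        rw [zpow_negSucc, ← inv_pow]
        refine (smul_set_mono inter_subset_right).trans ?_
        rw [← smul_set_compl]
        exact (hpow' m).trans subset_union_left
      · exact absurd (zpow_zero t) hg1
      · obtain ⟨m, rfl⟩ := Int.eq_succ_of_zero_lt hk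
        rw [← Int.natCast_succ, zpow_natCast]
        exact (smul_set_mono inter_subset_left).trans ((hpow m).trans subset_union_right)
  · push Not at hc
    have hc' : ∀ g : Γ, ¬ IsMaxIn 𝓗 Sᶜ (g • Sᶜ) := by
      intro g hg
      have h1 := h.max_smul (h.max_symm hS' hg) g⁻¹
      rw [smul_set_compl, inv_smul_smul, compl_compl] at h1
      exact hc _ h1
    have hne : ∀ {U} (hU : U ∈ 𝓗), (∀ g : Γ, ¬ IsMaxIn 𝓗 U (g • U)) → h.stab hU ≠ ⊥ := by
      intro U hU hUc hbot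
      obtain ⟨W, hW, hWU⟩ := h.small U hU
      obtain ⟨W', hW', -⟩ := h.exists_max hU hW hWU
      obtain ⟨g, rfl | rfl⟩ := h.trans U hU W' hW'.1
      · exact hUc g hW'
      · have : g ∈ h.stab hU := Or.inr hW'
        rw [hbot, Subgroup.mem_bot] at this
        subst this
        rw [one_smul] at hW'
        exact h.not_sub hW'.1 hW'.2.1.subset subset_rfl
    have hsup : h.stab hS ⊔ h.stab hS' = ⊤ := by
      refine h.eq_top hS _ ?_
      rintro U V (rfl | rfl) (rfl | rfl) g hg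
      · exact absurd hg (hc g)
      · exact Subgroup.mem_sup_right (Or.inr (by rwa [compl_compl]))
      · exact Subgroup.mem_sup_left (Or.inr hg)
      · exact absurd hg (hc' g)
    have := infinite_of_ne_bot htf (hne hS' hc')
    refine ⟨_, hsup, hne hS' hc', Or.inl (hne hS hc), ?_⟩
    refine univ_of_ping_pong hsup (h.nonempty _ hS) (h.nonempty _ hS') disjoint_compl_right ?_ ?_
    · rintro g (hg | hg) hg1
      · exact absurd (h.free _ hS' g hg) hg1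
      · exact hg.2.1.subset
    · rintro g (hg | hg) hg1
      · rw [compl_compl] at hg; exact absurd (h.free _ hS g hg) hg1
      · rw [compl_compl] at hg; exact hg.2.1.subset

end Pool.Agent.Shared.StallingsSwan
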