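import Mathlib
import Pool.Agent.Shared.StallingsSwan.Split

set_option autoImplicit false

/-!
The theorem of Stallings for torsion-free groups, relative to a subgroup.
-/

namespace Pool.Agent.Shared.StallingsSwan

open Set
open scoped Pointwise

variable {Γ : Type} [Group Γ] {A : Subgroup Γ}

theorem Nontriv.exists_edge {S : Set Γ} (h : Nontriv A S) : ∃ x y, x ∈ S ∧ x * y ∉ S := by
  obtain ⟨x, hx⟩ := h.2.2.1.nonempty
  obtain ⟨z, hz⟩ := h.2.2.2.nonempty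
  exact ⟨x, x⁻¹ * z, hx, by simpa using hz⟩

theorem Nontriv.free (htf : ∀ g : Γ, IsOfFinOrder g → g = 1) {S : Set Γ} (h : Nontriv A S)
    {g : Γ} (hg : g • S = S ∨ g • S = Sᶜ) : g = 1 := by
  obtain ⟨x, y, hx, hy⟩ := h.exists_edge
  have hinv : ∀ z ∈ {z | ¬ (z ∈ S ↔ z * y ∈ S)}, g * z ∈ {z | ¬ (z ∈ S ↔ z * y ∈ S)} := by
    intro z hz
    have h1 : ∀ w, g * w ∈ g • S ↔ w ∈ S := fun w => smul_mem_smul_set_iff
    have h2 := h1 z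
    have h3 := h1 (z * y)
    simp only [mem_ofPred_eq, mul_assoc] at hz ⊢
    rcases hg with hg | hg
    · rw [hg] at h2 h3; tauto
    · rw [hg, mem_compl_iff] at h2 h3; tauto
  have hpow : ∀ k : ℕ, g ^ k * x ∈ {z | ¬ (z ∈ S ↔ z * y ∈ S)} := by
    intro k
    induction k with
    | zero => simp [hx, hy]
    | succ k ih => rw [pow_succ', mul_assoc]; exact hinv _ ih
  refine htf g (finite_powers.1 ?_)
  refine ((h.1 y).image (fun z => z * x⁻¹)).subset ?_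
  rintro _ ⟨k, rfl⟩
  exact ⟨_, hpow k, by simp⟩

theorem half_of_nested (htf : ∀ g : Γ, IsOfFinOrder g → g = 1) {S : Set Γ} (h : Nontriv A S)
    (hn : ∀ g : Γ, S ⊆ g • S ∨ S ⊆ (g • S)ᶜ ∨ Sᶜ ⊆ g • S ∨ Sᶜ ⊆ (g • S)ᶜ) :
    Half {W | ∃ g : Γ, W = g • S ∨ W = g • Sᶜ} := by
  have hnt : ∀ W ∈ {W | ∃ g : Γ, W = g • S ∨ W = g • Sᶜ}, Nontriv A W := by
    rintro W ⟨g, rfl | rfl⟩
    exacts [h.smul g, h.compl.smul g]
  have hcompl : ∀ W ∈ {W | ∃ g : Γ, W = g • S ∨ W = g • Sᶜ},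
      Wᶜ ∈ {W | ∃ g : Γ, W = g • S ∨ W = g • Sᶜ} := by
    rintro W ⟨g, rfl | rfl⟩
    · exact ⟨g, Or.inr smul_set_compl.symm⟩
    · exact ⟨g, Or.inl (by rw [smul_set_compl, compl_compl])⟩
  have hsmul : ∀ W ∈ {W | ∃ g : Γ, W = g • S ∨ W = g • Sᶜ}, ∀ a : Γ,
      a • W ∈ {W | ∃ g : Γ, W = g • S ∨ W = g • Sᶜ} := by
    rintro W ⟨g, rfl | rfl⟩ a
    · exact ⟨a * g, Or.inl (smul_smul _ _ _)⟩
    · exact ⟨a * g, Or.inr (smul_smul _ _ _)⟩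
  have hnested : ∀ U ∈ {W | ∃ g : Γ, W = g • S ∨ W = g • Sᶜ},
      ∀ W ∈ {W | ∃ g : Γ, W = g • S ∨ W = g • Sᶜ}, U ⊆ W ∨ U ⊆ Wᶜ ∨ Uᶜ ⊆ W ∨ Uᶜ ⊆ Wᶜ := by
    have h1 : ∀ a b : Γ, a • S ⊆ b • S ∨ a • S ⊆ (b • S)ᶜ ∨ (a • S)ᶜ ⊆ b • S ∨
        (a • S)ᶜ ⊆ (b • S)ᶜ := by
      intro a b
      have := hn (a⁻¹ * b)
      simp only [← smul_set_compl, smul_set_subset_iff_subset_inv_smul_set, smul_smul] at this ⊢
      exact this
    rintro U ⟨a, rfl | rfl⟩ W ⟨b, rfl | rfl⟩ <;> have := h1 a b <;>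
      (try simp only [smul_set_compl, compl_compl]) <;> tauto
  refine ⟨hcompl, hsmul, hnested, fun W hW => (hnt W hW).2.2.1.nonempty, fun x y => ?_,
    fun W hW g hg => (hnt W hW).free htf (Or.inl hg), fun W hW g hg => ?_, ?_, fun U hU => ?_⟩
  · have hf := (h.1 (x⁻¹ * y)).image (fun z => x * z⁻¹)
    refine ((hf.image (fun g => g • S)).union (hf.image (fun g => g • Sᶜ))).subset ?_
    rintro W ⟨⟨g, rfl | rfl⟩, hx, hy⟩
    · rw [mem_smul_set_iff_inv_smul_mem, smul_eq_mul] at hx hy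
      exact Or.inl ⟨g, ⟨g⁻¹ * x, by simp [mul_assoc, hx, hy], by simp⟩, rfl⟩
    · rw [mem_smul_set_iff_inv_smul_mem, smul_eq_mul, mem_compl_iff] at hx hy
      exact Or.inr ⟨g, ⟨g⁻¹ * x, by simpa [mul_assoc, hx] using hy, by simp⟩, rfl⟩
  · have := (hnt W hW).free htf (Or.inr hg)
    rw [this, one_smul] at hg
    obtain ⟨x, hx⟩ := (hnt W hW).2.2.1.nonempty
    exact (hg ▸ hx : x ∈ Wᶜ) hx
  · rintro U ⟨a, rfl | rfl⟩ W ⟨b, rfl | rfl⟩ <;> refine ⟨b * a⁻¹, ?_⟩ <;>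
      simp [← smul_set_compl, smul_smul]
  · have hU' := hnt U hU
    obtain ⟨x, y, hx, hy⟩ := hU'.exists_edge
    obtain ⟨z, hz, hz'⟩ := (hU'.2.2.1.sdiff (hU'.1 y)).nonempty
    have hzy : z * y ∈ U := by
      simp only [mem_ofPred_eq, not_not] at hz'
      exact hz'.1 hz
    have h1 : z ∈ (z * x⁻¹) • U := by
      rw [mem_smul_set_iff_inv_smul_mem]; simpa using hx
    have h2 : z * y ∉ (z * x⁻¹) • U := by
      rw [mem_smul_set_iff_inv_smul_mem]; simpa [mul_assoc] using hy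
    rcases hnested U hU _ (hsmul U hU (z * x⁻¹)) with h3 | h3 | h3 | h3
    · exact absurd (h3 hzy) h2
    · exact absurd h1 (h3 hz)
    · exact ⟨_, hcompl _ (hsmul U hU (z * x⁻¹)), compl_subset_comm.1 h3, fun h4 => h4 hz h1⟩
    · exact ⟨_, hsmul U hU (z * x⁻¹), compl_subset_compl.1 h3, fun h4 => h2 (h4 hzy)⟩

/-- A finitely generated torsion-free group with a nontrivial almost invariant set which is
invariant under the subgroup `A` is a free product with `A` contained in a factor. -/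
theorem stallings (hfg : Group.FG Γ) (htf : ∀ g : Γ, IsOfFinOrder g → g = 1) {S₀ : Set Γ}
    (h₀ : Nontriv A S₀) :
    ∃ C₁ C₂ : Subgroup Γ, A ≤ C₁ ∧ C₁ ⊔ C₂ = ⊤ ∧ C₂ ≠ ⊥ ∧
      (C₁ ≠ ⊥ ∨ ∃ t, C₂ = Subgroup.zpowers t) ∧ Univ C₁ C₂ := by
  obtain ⟨S₁, h₁, hn⟩ := exists_nested hfg h₀
  have h := half_of_nested htf h₁ hn
  have hinv : ∀ W ∈ {W | ∃ g : Γ, W = g • S₁ ∨ W = g • S₁ᶜ}, Inv A W := by
    rintro W ⟨g, rfl | rfl⟩
    exacts [(h₁.smul g).2.1, (h₁.compl.smul g).2.1]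
  set 𝓗 := {W | ∃ g : Γ, W = g • S₁ ∨ W = g • S₁ᶜ}
  obtain ⟨W₀, hW₀, h1W₀⟩ : ∃ W ∈ 𝓗, (1 : Γ) ∈ W := by
    have : S₁ ∈ 𝓗 := ⟨1, Or.inl (one_smul _ _).symm⟩
    by_cases h1 : (1 : Γ) ∈ S₁
    exacts [⟨S₁, this, h1⟩, ⟨S₁ᶜ, h.compl _ this, h1⟩]
  obtain ⟨y, hy⟩ := h.nonempty _ (h.compl _ hW₀)
  obtain ⟨S, hSmin⟩ := (h.finite 1 y).exists_minimal ⟨W₀, hW₀, h1W₀, hy⟩
  have hS : S ∈ 𝓗 := hSmin.1.1
  have h1S : (1 : Γ) ∈ S := hSmin.1.2.1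
  have hmin : ∀ W ∈ 𝓗, (1 : Γ) ∈ W → W ⊆ S → W = S := fun W hW h1 hWS =>
    subset_antisymm hWS (hSmin.2 ⟨hW, h1, fun h2 => hSmin.1.2.2 (hWS h2)⟩ hWS)
  have hone : ∀ W ∈ 𝓗, ∀ a ∈ A, (1 : Γ) ∈ W → (1 : Γ) ∈ a • W := by
    intro W hW a ha h1
    rw [mem_smul_set_iff_inv_smul_mem]
    simpa using hinv W hW 1 a⁻¹ (A.inv_mem ha) h1
  have hmin' : ∀ a ∈ A, ∀ W ∈ 𝓗, (1 : Γ) ∈ W → W ⊆ a • S → W = a • S := by
    intro a ha W hW h1 hWS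
    have := hmin (a⁻¹ • W) (h.smul W hW _) (hone W hW _ (A.inv_mem ha) h1)
      (by rwa [smul_set_subset_iff_subset_inv_smul_set, inv_inv])
    rw [← this, smul_inv_smul]
  obtain ⟨C₂, hC₂⟩ := h.split htf hS
  refine ⟨h.stab hS, C₂, fun a ha => ?_, hC₂⟩
  rw [h.mem_stab, smul_set_compl]
  have haS := h.smul S hS a
  have h1a := hone S hS a ha h1S
  rcases h.nested S hS _ haS with h1 | h1 | h1 | h1
  · exact Or.inl (by rw [← hmin' a ha S hS h1S h1])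
  · exact absurd h1a (h1 h1S)
  · refine Or.inr ⟨h.compl _ haS, ⟨compl_subset_comm.1 h1, fun h2 => h2 h1S h1a⟩,
      fun W hW h2 h3 => ?_⟩
    have h4 : (1 : Γ) ∉ W := fun h4 => h3.ne (hmin W hW h4 h3.subset)
    rw [← hmin' a ha Wᶜ (h.compl W hW) h4 (compl_subset_comm.1 h2), compl_compl]
  · exact Or.inl (by rw [hmin _ haS h1a (compl_subset_compl.1 h1)])

end Pool.Agent.Shared.StallingsSwan
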