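import Mathlib
import Pool.Agent.Shared.StallingsSwan.Defs
import Pool.Agent.Shared.StallingsSwan.Stallings

set_option autoImplicit false

/-!
Free factors with free complement in locally indicable groups, by induction on the first Betti
number.
-/

namespace Pool.Agent.Shared.StallingsSwan

open Set

variable {H M : Type} [Group H] [Group M]

/-- `f` is multiplicative on the subgroup `C`. -/
def MulOn (C : Subgroup H) (f : H → M) : Prop := ∀ x ∈ C, ∀ y ∈ C, f (x * y) = f x * f y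

/-- The homomorphism given by a function which is multiplicative on a subgroup. -/
def MulOn.hom {C : Subgroup H} {f : H → M} (h : MulOn C f) : C →* M :=
  MonoidHom.mk' (fun x => f x) (fun x y => h x x.2 y y.2)

theorem MulOn.map_one {C : Subgroup H} {f : H → M} (h : MulOn C f) : f 1 = 1 := h.hom.map_one

theorem MulOn.map_inv {C : Subgroup H} {f : H → M} (h : MulOn C f) {x : H} (hx : x ∈ C) :
    f x⁻¹ = (f x)⁻¹ := h.hom.map_inv ⟨x, hx⟩

theorem MulOn.mono {C D : Subgroup H} {f : H → M} (h : MulOn C f) (hD : D ≤ C) : MulOn D f :=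
  fun x hx y hy => h x (hD hx) y (hD hy)

theorem exists_mulOn {C : Subgroup H} (φ : C →* M) : ∃ f : H → M, MulOn C f ∧ ∀ x : C, f x = φ x := by
  classical
  refine ⟨fun x => if hx : x ∈ C then φ ⟨x, hx⟩ else 1, fun x hx y hy => ?_, fun x => by simp⟩
  simp only [dif_pos hx, dif_pos hy, dif_pos (C.mul_mem hx hy)]
  exact φ.map_mul ⟨x, hx⟩ ⟨y, hy⟩

/-- The preimage of a subgroup. -/
def MulOn.pre {C : Subgroup H} {f : H → M} (h : MulOn C f) (K : Subgroup M) : Subgroup H where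
  carrier := {x | x ∈ C ∧ f x ∈ K}
  one_mem' := ⟨C.one_mem, by rw [h.map_one]; exact K.one_mem⟩
  mul_mem' := fun {x y} hx hy =>
    ⟨C.mul_mem hx.1 hy.1, by rw [h x hx.1 y hy.1]; exact K.mul_mem hx.2 hy.2⟩
  inv_mem' := fun {x} hx => ⟨C.inv_mem hx.1, by rw [h.map_inv hx.1]; exact K.inv_mem hx.2⟩

/-- `C` is the free product of `C₁` and `C₂`. -/
def FP (C C₁ C₂ : Subgroup H) : Prop :=
  C₁ ⊔ C₂ = C ∧ ∀ (M : Type) [Group M] (f₁ f₂ : H → M), MulOn C₁ f₁ → MulOn C₂ f₂ →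
    ∃ F : H → M, MulOn C F ∧ EqOn F f₁ C₁ ∧ EqOn F f₂ C₂

/-- `C` is the free product of `A` and the free group on `Z`. -/
def FF (A C : Subgroup H) (Z : Set H) : Prop :=
  A ⊔ Subgroup.closure Z = C ∧ ∀ (M : Type) [Group M] (f z : H → M), MulOn A f →
    ∃ F : H → M, MulOn C F ∧ EqOn F f A ∧ EqOn F z Z

/-- Every finitely generated proper overgroup has a nontrivial almost invariant set which is
invariant under `A`. -/
def Good (A : Subgroup H) : Prop :=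
  ∀ B : Subgroup H, B.FG → A < B → ∃ S : Set B, Nontriv (A.subgroupOf B) S

theorem FP.symm {C C₁ C₂ : Subgroup H} (h : FP C C₁ C₂) : FP C C₂ C₁ :=
  ⟨by rw [sup_comm]; exact h.1, fun M _ f₁ f₂ h₁ h₂ => by
    obtain ⟨F, a, b, c⟩ := h.2 M f₂ f₁ h₂ h₁
    exact ⟨F, a, c, b⟩⟩

theorem FP.left_le {C C₁ C₂ : Subgroup H} (h : FP C C₁ C₂) : C₁ ≤ C := h.1 ▸ le_sup_left

theorem FP.fg {C C₁ C₂ : Subgroup H} (h : FP C C₁ C₂) (hC : C.FG) : C₁.FG := by
  classical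
  obtain ⟨F, hF, h1, h2⟩ := h.2 H id (fun _ => 1) (fun _ _ _ _ => rfl) (fun _ _ _ _ => by simp)
  obtain ⟨Y, hY⟩ := hC
  refine ⟨Y.image F, le_antisymm ?_ ?_⟩
  · have : C ≤ hF.pre C₁ := by
      conv_lhs => rw [← h.1]
      exact sup_le (fun x hx => ⟨h.left_le hx, by rw [h1 hx]; exact hx⟩)
        (fun x hx => ⟨h.symm.left_le hx, by rw [h2 hx]; exact C₁.one_mem⟩)
    rw [Subgroup.closure_le, Finset.coe_image]
    rintro _ ⟨y, hy, rfl⟩
    exact (this (hY ▸ Subgroup.subset_closure hy)).2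
  · have : C ≤ hF.pre (Subgroup.closure (Y.image F : Set H)) := by
      conv_lhs => rw [← hY]
      rw [Subgroup.closure_le]
      exact fun y hy => ⟨hY ▸ Subgroup.subset_closure hy,
        Subgroup.subset_closure (Finset.mem_coe.2 (Finset.mem_image_of_mem F hy))⟩
    intro x hx
    have h3 := (this (h.left_le hx)).2
    rwa [h1 hx] at h3

/-- The space of rational homomorphisms on `C`. -/
def homQ (C : Subgroup H) : Submodule ℚ (H → ℚ) where
  carrier := {f | AddOn C f ∧ ∀ x ∉ C, f x = 0}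
  zero_mem' := ⟨fun _ _ _ _ => by simp, fun _ _ => rfl⟩
  add_mem' := fun {f g} hf hg => ⟨fun x hx y hy => by
    simp only [Pi.add_apply, hf.1 x hx y hy, hg.1 x hx y hy]; ring,
    fun x hx => by simp [hf.2 x hx, hg.2 x hx]⟩
  smul_mem' := fun c f hf => ⟨fun x hx y hy => by
    simp only [Pi.smul_apply, hf.1 x hx y hy, smul_add], fun x hx => by simp [hf.2 x hx]⟩

theorem finite_homQ {C : Subgroup H} (hC : C.FG) : Module.Finite ℚ (homQ C) := by
  obtain ⟨Y, hY⟩ := hC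
  refine Module.Finite.of_injective
    ((LinearMap.funLeft ℚ ℚ (fun y : Y => (y : H))) ∘ₗ (homQ C).subtype) ?_
  rw [injective_iff_map_eq_zero]
  intro f hf
  have : C ≤ f.2.1.zeros := by
    conv_lhs => rw [← hY]
    rw [Subgroup.closure_le]
    exact fun y hy => ⟨hY ▸ Subgroup.subset_closure hy, congrFun hf ⟨y, hy⟩⟩
  ext x
  by_cases hx : x ∈ C
  exacts [(this hx).2, f.2.2 x hx]

theorem FP.finrank_lt {C C₁ C₂ : Subgroup H} (h : FP C C₁ C₂) (hC : C.FG) (hLI : LocInd H)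
    (h₂ : C₂ ≠ ⊥) : Module.finrank ℚ (homQ C₁) < Module.finrank ℚ (homQ C) := by
  classical
  have := finite_homQ hC
  have key : ∀ f₁ f₂ : H → ℚ, AddOn C₁ f₁ → AddOn C₂ f₂ →
      ∃ F : homQ C, EqOn F.1 f₁ C₁ ∧ EqOn F.1 f₂ C₂ := by
    intro f₁ f₂ h₁ h₂
    obtain ⟨F, a, b, c⟩ := h.2 (Multiplicative ℚ) (fun x => Multiplicative.ofAdd (f₁ x))
      (fun x => Multiplicative.ofAdd (f₂ x)) (fun x hx y hy => congrArg Multiplicative.ofAdd (h₁ x hx y hy))
      (fun x hx y hy => congrArg Multiplicative.ofAdd (h₂ x hx y hy))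
    refine ⟨⟨fun x => if x ∈ C then (F x).toAdd else 0, fun x hx y hy => ?_,
      fun x hx => if_neg hx⟩, fun x hx => ?_, fun x hx => ?_⟩
    · simp only [if_pos hx, if_pos hy, if_pos (C.mul_mem hx hy), a x hx y hy, toAdd_mul]
    · simp only [if_pos (h.left_le hx), b hx, toAdd_ofAdd]
    · simp only [if_pos (h.symm.left_le hx), c hx, toAdd_ofAdd]
  let res : homQ C →ₗ[ℚ] homQ C₁ :=
    { toFun := fun f => ⟨fun x => if x ∈ C₁ then f.1 x else 0, fun x hx y hy => by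
          simp only [if_pos hx, if_pos hy, if_pos (C₁.mul_mem hx hy)]
          exact f.2.1 x (h.left_le hx) y (h.left_le hy), fun x hx => if_neg hx⟩
      map_add' := fun f g => by ext x; by_cases hx : x ∈ C₁ <;> simp [hx]
      map_smul' := fun c f => by ext x; by_cases hx : x ∈ C₁ <;> simp [hx] }
  have hsurj : LinearMap.range res = ⊤ := by
    rw [eq_top_iff]
    intro g _
    obtain ⟨F, a, -⟩ := key g.1 0 g.2.1 (fun _ _ _ _ => by simp)
    refine ⟨F, ?_⟩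
    ext x
    by_cases hx : x ∈ C₁
    · simp [res, hx, a hx]
    · simp [res, hx, g.2.2 x hx]
  have hker : LinearMap.ker res ≠ ⊥ := by
    obtain ⟨f, hf, x, hx, hfx⟩ := hLI C₂ (h.symm.fg hC) h₂
    obtain ⟨F, a, b⟩ := key 0 f (fun _ _ _ _ => by simp) hf
    rw [Submodule.ne_bot_iff]
    refine ⟨F, ?_, fun h0 => hfx ?_⟩
    · rw [LinearMap.mem_ker]
      ext y
      by_cases hy : y ∈ C₁
      · simp [res, hy, a hy]
      · simp [res, hy]
    · rw [← b hx, h0]; rfl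
  have h1 := LinearMap.finrank_range_add_finrank_ker res
  rw [hsurj, finrank_top] at h1
  have h2 : 0 < Module.finrank ℚ (LinearMap.ker res) :=
    Nat.pos_of_ne_zero (fun h0 => hker (Submodule.finrank_eq_zero.1 h0))
  omega

theorem FF.refl (A : Subgroup H) : FF A A ∅ :=
  ⟨by simp, fun _ _ f _ hf => ⟨f, hf, fun _ _ => rfl, fun _ h => h.elim⟩⟩

theorem FF.cyclic {t : H} (ht : ¬ IsOfFinOrder t) : FF ⊥ (Subgroup.zpowers t) {t} := by
  classical
  refine ⟨by simp [Subgroup.zpowers_eq_closure], fun M _ f z hf => ?_⟩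
  have hinj := injective_zpow_iff_not_isOfFinOrder.2 ht
  let F : H → M := fun x => if hx : ∃ k : ℤ, t ^ k = x then z t ^ hx.choose else 1
  have hF : ∀ k : ℤ, F (t ^ k) = z t ^ k := by
    intro k
    have hx : ∃ k' : ℤ, t ^ k' = t ^ k := ⟨k, rfl⟩
    simp only [F, dif_pos hx]
    rw [hinj hx.choose_spec]
  refine ⟨F, ?_, ?_, ?_⟩
  · rintro _ ⟨k, rfl⟩ _ ⟨l, rfl⟩
    simp only [← zpow_add, hF]
  · intro x hx
    rw [SetLike.mem_coe, Subgroup.mem_bot] at hx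
    subst hx
    simpa [hf.map_one] using hF 0
  · rintro _ rfl
    simpa using hF 1

theorem FF.comp {A C C₁ C₂ : Subgroup H} {Z₁ Z₂ : Set H} (h₁ : FF A C₁ Z₁) (h₂ : FF ⊥ C₂ Z₂)
    (h : FP C C₁ C₂) : FF A C (Z₁ ∪ Z₂) := by
  refine ⟨?_, fun M _ f z hf => ?_⟩
  · rw [Subgroup.closure_union, ← sup_assoc, h₁.1, ← h.1, ← h₂.1, bot_sup_eq]
  · obtain ⟨F₁, a₁, b₁, c₁⟩ := h₁.2 M f z hf
    obtain ⟨F₂, a₂, -, c₂⟩ := h₂.2 M (fun _ => 1) z (fun _ _ _ _ => by simp)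
    obtain ⟨F, a, b, c⟩ := h.2 M F₁ F₂ a₁ a₂
    refine ⟨F, a, fun x hx => (b (h₁.1 ▸ Subgroup.mem_sup_left hx)).trans (b₁ hx), ?_⟩
    rintro x (hx | hx)
    · exact (b (h₁.1 ▸ Subgroup.mem_sup_right (Subgroup.subset_closure hx))).trans (c₁ hx)
    · exact (c (h₂.1 ▸ Subgroup.mem_sup_right (Subgroup.subset_closure hx))).trans (c₂ hx)

theorem stallings_ambient (htf : ∀ g : H, IsOfFinOrder g → g = 1) {A B : Subgroup H} (hB : B.FG)
    (hAB : A ≤ B) {S : Set B} (hS : Nontriv (A.subgroupOf B) S) :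
    ∃ C₁ C₂ : Subgroup H, A ≤ C₁ ∧ FP B C₁ C₂ ∧ C₂ ≠ ⊥ ∧
      (C₁ ≠ ⊥ ∨ ∃ t, C₂ = Subgroup.zpowers t) := by
  obtain ⟨C₁, C₂, h1, h2, h3, h4, h5⟩ := stallings ((Group.fg_iff_subgroup_fg B).2 hB)
    (fun g hg => Subtype.ext (htf g (B.subtype.isOfFinOrder hg))) hS
  have hinj := B.subtype_injective
  refine ⟨C₁.map B.subtype, C₂.map B.subtype, fun a ha => ⟨⟨a, hAB ha⟩, h1 ha, rfl⟩, ⟨?_, ?_⟩,
    by rwa [Ne, Subgroup.map_eq_bot_iff_of_injective _ hinj], ?_⟩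
  · rw [← Subgroup.map_sup, h2, ← MonoidHom.range_eq_map, Subgroup.range_subtype]
  · intro M _ f₁ f₂ m₁ m₂
    obtain ⟨F, a, b⟩ := h5 M
      (MonoidHom.mk' (fun x : C₁ => f₁ x.1.1) (fun x y => m₁ _ ⟨_, x.2, rfl⟩ _ ⟨_, y.2, rfl⟩))
      (MonoidHom.mk' (fun x : C₂ => f₂ x.1.1) (fun x y => m₂ _ ⟨_, x.2, rfl⟩ _ ⟨_, y.2, rfl⟩))
    obtain ⟨F', c, d⟩ := exists_mulOn F
    refine ⟨F', c, ?_, ?_⟩
    · rintro _ ⟨x, hx, rfl⟩
      exact (d x).trans (a ⟨x, hx⟩)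
    · rintro _ ⟨x, hx, rfl⟩
      exact (d x).trans (b ⟨x, hx⟩)
  · rcases h4 with h4 | ⟨t, rfl⟩
    · exact Or.inl (by rwa [Ne, Subgroup.map_eq_bot_iff_of_injective _ hinj])
    · exact Or.inr ⟨t, MonoidHom.map_zpowers _ _⟩

theorem exists_ff (hLI : LocInd H) (h1 : Good (⊥ : Subgroup H)) :
    ∀ (n : ℕ) (C : Subgroup H), C.FG → Module.finrank ℚ (homQ C) = n →
      ∀ A ≤ C, Good A → ∃ Z, FF A C Z := by
  intro n
  induction n using Nat.strong_induction_on with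
  | h n ih =>
    intro C hC hn A hAC hA
    rcases hAC.eq_or_lt with rfl | hlt
    · exact ⟨∅, FF.refl _⟩
    obtain ⟨S, hS⟩ := hA C hC hlt
    obtain ⟨C₁, C₂, a, b, c, d⟩ :=
      stallings_ambient (fun g => hLI.eq_one_of_isOfFinOrder) hC hAC hS
    obtain ⟨Z₁, hZ₁⟩ := ih _ (hn ▸ b.finrank_lt hC hLI c) C₁ (b.fg hC) rfl A a hA
    obtain ⟨Z₂, hZ₂⟩ : ∃ Z, FF ⊥ C₂ Z := by
      rcases d with d | ⟨t, rfl⟩
      · exact ih _ (hn ▸ b.symm.finrank_lt hC hLI d) C₂ (b.symm.fg hC) rfl ⊥ bot_le h1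
      · exact ⟨{t}, FF.cyclic (fun ht => c (by simp [hLI.eq_one_of_isOfFinOrder ht]))⟩
    exact ⟨_, hZ₁.comp hZ₂ b⟩

theorem FF.isFreeGroup {C : Subgroup H} {Z : Set H} (h : FF ⊥ C Z) : IsFreeGroup C := by
  classical
  have hZ : Subgroup.closure Z = C := by simpa using h.1
  refine IsFreeGroup.ofUniqueLift Z (fun z => ⟨z, hZ ▸ Subgroup.subset_closure z.2⟩) ?_
  intro M _ f
  obtain ⟨F, a, -, b⟩ := h.2 M (fun _ => 1) (fun x => if hx : x ∈ Z then f ⟨x, hx⟩ else 1)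
    (fun _ _ _ _ => by simp)
  have hF : ∀ z : Z, a.hom ⟨z, hZ ▸ Subgroup.subset_closure z.2⟩ = f z := fun z =>
    (b z.2).trans (by simp)
  refine ⟨a.hom, hF, fun φ hφ => ?_⟩
  subst hZ
  ext ⟨x, hx⟩
  induction hx using Subgroup.closure_induction with
  | mem x hx => exact (hφ ⟨x, hx⟩).trans (hF ⟨x, hx⟩).symm
  | one => exact (map_one φ).trans (map_one a.hom).symm
  | mul x y hx hy ihx ihy =>
    have h1 := map_mul φ ⟨x, hx⟩ ⟨y, hy⟩
    rw [ihx, ihy] at h1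
    exact h1.trans (map_mul a.hom ⟨x, hx⟩ ⟨y, hy⟩).symm
  | inv x hx ih =>
    have h1 := map_inv φ ⟨x, hx⟩
    rw [ih] at h1
    exact h1.trans (map_inv a.hom ⟨x, hx⟩).symm

theorem ff_of_chain (A : ℕ → Subgroup H) (h0 : A 0 = ⊥) (Z : ℕ → Set H)
    (h : ∀ n, FF (A n) (A (n + 1)) (Z n)) (htop : ∀ x, ∃ n, x ∈ A n) :
    FF ⊥ (⊤ : Subgroup H) (⋃ n, Z n) := by
  classical
  have hmono : Monotone A := monotone_nat_of_le_succ (fun n => (h n).1 ▸ le_sup_left)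
  refine ⟨?_, fun M _ f z hf => ?_⟩
  · rw [bot_sup_eq, eq_top_iff]
    have : ∀ n, A n ≤ Subgroup.closure (⋃ n, Z n) := by
      intro n
      induction n with
      | zero => rw [h0]; exact bot_le
      | succ n ih => rw [← (h n).1]; exact sup_le ih (Subgroup.closure_mono (subset_iUnion Z n))
    intro x _
    obtain ⟨n, hn⟩ := htop x
    exact this n hn
  · choose G hG using fun n (f : H → M) (hf : MulOn (A n) f) => (h n).2 M f z hf
    let s : (n : ℕ) → {f : H → M // MulOn (A n) f} := fun n =>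
      Nat.rec ⟨f, h0 ▸ hf⟩ (fun n p => ⟨G n p.1 p.2, (hG n p.1 p.2).1⟩) n
    have hs : ∀ n m, n ≤ m → ∀ x ∈ A n, (s m).1 x = (s n).1 x := by
      intro n m hnm x hx
      induction m, hnm using Nat.le_induction with
      | base => rfl
      | succ m hnm ih => exact ((hG m (s m).1 (s m).2).2.1 (hmono hnm hx)).trans ih
    choose ν hν using htop
    have hF : ∀ n, ∀ x ∈ A n, (s (ν x)).1 x = (s n).1 x := fun n x hx =>
      (hs _ _ (le_max_left _ n) x (hν x)).symm.trans (hs _ _ (le_max_right _ n) x hx)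
    refine ⟨fun x => (s (ν x)).1 x, fun x _ y _ => ?_, fun x hx => ?_, fun x hx => ?_⟩
    · have hx := hmono (le_max_left (ν x) (ν y)) (hν x)
      have hy := hmono (le_max_right (ν x) (ν y)) (hν y)
      simp only
      rw [hF _ x hx, hF _ y hy, hF _ _ (Subgroup.mul_mem _ hx hy)]
      exact (s _).2 x hx y hy
    · exact hF 0 x (h0 ▸ hx)
    · obtain ⟨n, hn⟩ := mem_iUnion.1 hx
      have hx' : x ∈ A (n + 1) := (h n).1 ▸ Subgroup.mem_sup_right (Subgroup.subset_closure hn)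
      exact (hF _ x hx').trans ((hG n (s n).1 (s n).2).2.2 hn)

end Pool.Agent.Shared.StallingsSwan
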