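import Mathlib
import Pool.Agent.Shared.StallingsSwan.Rank

set_option autoImplicit false

/-!
A countable locally indicable group of cohomological dimension at most one over a finite field
is free.
-/

namespace Pool.Agent.Shared.StallingsSwan

open Set

variable {H Ω k : Type} [Group H] [MulAction H Ω] [Field k]

/-- Translation of finitely supported functions. -/
noncomputable def sh (g : H) : (Ω →₀ k) →ₗ[k] (Ω →₀ k) := Finsupp.lmapDomain k k (g • ·)

theorem sh_single (g : H) (ω : Ω) (c : k) : sh g (Finsupp.single ω c) = Finsupp.single (g • ω) c := by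
  simp [sh]

theorem sh_apply (g : H) (f : Ω →₀ k) (ω : Ω) : sh g f ω = f (g⁻¹ • ω) := by
  have := Finsupp.mapDomain_apply (MulAction.injective g) f (g⁻¹ • ω)
  rw [smul_inv_smul] at this
  exact this

theorem sh_mul (g h : H) (f : Ω →₀ k) : sh (g * h) f = sh g (sh h f) := by
  ext ω; simp [sh_apply, mul_smul]

theorem sh_one (f : Ω →₀ k) : sh (1 : H) f = f := by
  ext ω; simp [sh_apply]

/-- The augmentation. -/
noncomputable def aug : (Ω →₀ k) →ₗ[k] k := Finsupp.linearCombination k (fun _ => (1 : k))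

/-- `d` is a derivation on the subgroup `B`. -/
def Der (B : Subgroup H) (d : H → (Ω →₀ k)) : Prop :=
  ∀ x ∈ B, ∀ y ∈ B, d (x * y) = d x + sh x (d y)

theorem Der.mono {B C : Subgroup H} {d : H → (Ω →₀ k)} (h : Der B d) (hC : C ≤ B) : Der C d :=
  fun x hx y hy => h x (hC hx) y (hC hy)

theorem Der.map_one {B : Subgroup H} {d : H → (Ω →₀ k)} (h : Der B d) : d 1 = 0 := by
  have := h 1 B.one_mem 1 B.one_mem
  rw [mul_one, sh_one] at this
  simpa using this

theorem Der.inv_apply {B : Subgroup H} {d : H → (Ω →₀ k)} (h : Der B d) {x : H} (hx : x ∈ B)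
    (ω : Ω) : d x⁻¹ ω = -d x (x • ω) := by
  have := DFunLike.congr_fun (h x⁻¹ (B.inv_mem hx) x hx) ω
  rw [inv_mul_cancel, h.map_one, Finsupp.add_apply, sh_apply, inv_inv] at this
  exact eq_neg_of_add_eq_zero_left this.symm

/-- The elements whose value vanishes on an invariant set. -/
def Der.vanish {B : Subgroup H} {d : H → (Ω →₀ k)} (h : Der B d) (O : Set Ω)
    (hO : ∀ g ∈ B, ∀ ω ∈ O, g • ω ∈ O) : Subgroup H where
  carrier := {x | x ∈ B ∧ ∀ ω ∈ O, d x ω = 0}
  one_mem' := ⟨B.one_mem, fun ω _ => by rw [h.map_one]; rfl⟩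
  mul_mem' := fun {x y} hx hy => ⟨B.mul_mem hx.1 hy.1, fun ω hω => by
    rw [h x hx.1 y hy.1, Finsupp.add_apply, sh_apply, hx.2 ω hω,
      hy.2 _ (hO _ (B.inv_mem hx.1) ω hω), add_zero]⟩
  inv_mem' := fun {x} hx => ⟨B.inv_mem hx.1, fun ω hω => by
    rw [h.inv_apply hx.1, hx.2 _ (hO _ hx.1 ω hω), neg_zero]⟩

/-- The almost invariant function attached to a derivation. -/
def phi (d : H → (Ω →₀ k)) (ω : Ω) (b : H) : k := d b⁻¹ (b⁻¹ • ω)

theorem Der.phi_mul {B : Subgroup H} {d : H → (Ω →₀ k)} (h : Der B d) (ω : Ω) {b g : H}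
    (hb : b ∈ B) (hg : g ∈ B) : phi d ω (b * g) = phi d ω b + d g⁻¹ (g⁻¹ • b⁻¹ • ω) := by
  rw [phi, mul_inv_rev, h _ (B.inv_mem hg) _ (B.inv_mem hb), Finsupp.add_apply, sh_apply, mul_smul,
    inv_inv, smul_inv_smul, add_comm, phi]

theorem Der.ai {B : Subgroup H} {d : H → (Ω →₀ k)} (h : Der B d)
    (hfree : ∀ (g : H) (ω : Ω), g • ω = ω → g = 1) (ω : Ω) (c : k) :
    AI {b : B | phi d ω b = c} := by
  intro g
  have hinj : Function.Injective (fun b : B => (g : H)⁻¹ • (b : H)⁻¹ • ω) := by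
    intro a b hab
    have h1 : (a : H)⁻¹ • ω = (b : H)⁻¹ • ω := MulAction.injective _ hab
    have h2 := hfree (a * (b : H)⁻¹) ω (by rw [mul_smul, ← h1, smul_inv_smul])
    exact Subtype.ext (mul_inv_eq_one.1 h2)
  refine ((d (g : H)⁻¹).support.finite_toSet.preimage hinj.injOn).subset (fun b hb => ?_)
  simp only [mem_preimage, Finset.mem_coe, Finsupp.mem_support_iff]
  intro h0
  apply hb
  simp only [mem_ofPred_eq, Subgroup.coe_mul]
  rw [h.phi_mul ω b.2 g.2, h0, add_zero]

/-- The data showing that the augmentation ideal is projective. -/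
structure Proj (d : H → (Ω →₀ k)) (τ : (Ω →₀ k) →ₗ[k] (H →₀ k)) : Prop where
  free : ∀ (g : H) (ω : Ω), g • ω = ω → g = 1
  der : Der ⊤ d
  equi : ∀ (g : H) f, τ (sh g f) = sh g (τ f)
  aug : ∀ f, aug (τ f) = 0
  split : ∀ g : H, τ (d g) = Finsupp.single g 1 - Finsupp.single 1 1

theorem Proj.good_bot [Finite k] {d : H → (Ω →₀ k)} {τ : (Ω →₀ k) →ₗ[k] (H →₀ k)} (h : Proj d τ)
    (htf : ∀ g : H, IsOfFinOrder g → g = 1) : Good (⊥ : Subgroup H) := by
  classical
  intro B hB hlt
  by_contra hcon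
  push Not at hcon
  have hinf : Infinite B := infinite_of_ne_bot htf hlt.ne'
  have hd : Der B d := h.der.mono le_top
  have hc : ∀ ω, ∃ c, {b : B | phi d ω b ≠ c}.Finite := by
    intro ω
    obtain ⟨c, hc⟩ := Finite.exists_infinite_fiber (fun b : B => phi d ω b)
    refine ⟨c, ?_⟩
    by_contra h1
    refine hcon {b : B | phi d ω b = c} ⟨hd.ai h.free ω c, fun x a ha hx => ?_,
      infinite_coe_iff.1 hc, h1⟩
    have : a = 1 := by simpa [Subgroup.mem_subgroupOf] using ha
    simpa [this] using hx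
  choose c hc using hc
  have hrel : ∀ g ∈ B, ∀ ω, c (g • ω) = c ω + d g⁻¹ ω := by
    intro g hg ω
    have h1 := (hc (g • ω)).preimage (f := fun b : B => ⟨g, hg⟩ * b) (mul_right_injective _).injOn
    obtain ⟨b, hb⟩ := ((hc ω).union h1).exists_notMem
    simp only [mem_union, mem_ofPred_eq, mem_preimage, not_or, not_not] at hb
    rw [← hb.1, ← hb.2]
    simp only [Subgroup.coe_mul, phi, mul_inv_rev]
    rw [hd _ (B.inv_mem b.2) _ (B.inv_mem hg), Finsupp.add_apply, sh_apply]
    simp [mul_smul]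
  obtain ⟨Y, hY⟩ := hB
  let F : Finset Ω := Y.biUnion (fun y => (d y).support)
  have hsupp : (Function.support c).Finite := by
    refine (F.finite_toSet.biUnion (fun ω _ => (hc ω).image (fun b : B => (b : H)⁻¹ • ω))).subset ?_
    intro ω hω
    by_cases h1 : ∃ g ∈ B, g • ω ∈ F
    · obtain ⟨g, hg, hgF⟩ := h1
      refine mem_biUnion hgF ⟨⟨g, hg⟩, fun h2 => hω ?_, by simp⟩
      have h3 := hrel g hg ω
      rw [← h2] at h3
      simpa [phi] using h3
    · push Not at h1
      have h2 : B ≤ hd.vanish {ω' | ∃ g ∈ B, ω' = g • ω} (by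
          rintro a ha _ ⟨g, hg, rfl⟩
          exact ⟨a * g, B.mul_mem ha hg, (mul_smul _ _ _).symm⟩) := by
        conv_lhs => rw [← hY]
        rw [Subgroup.closure_le]
        refine fun y hy => ⟨hY ▸ Subgroup.subset_closure hy, ?_⟩
        rintro _ ⟨g, hg, rfl⟩
        by_contra h3
        exact h1 g hg (Finset.mem_biUnion.2 ⟨y, hy, Finsupp.mem_support_iff.2 h3⟩)
      obtain ⟨b, hb⟩ := (hc ω).exists_notMem
      simp only [mem_ofPred_eq, not_not] at hb
      exact absurd (hb.symm.trans ((h2 (B.inv_mem b.2)).2 _ ⟨_, B.inv_mem b.2, rfl⟩)) hω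
  let v : Ω →₀ k := Finsupp.ofSupportFinite c hsupp
  have hv : ∀ g ∈ B, sh g v = v + d g := by
    intro g hg
    ext ω
    rw [sh_apply, Finsupp.add_apply]
    have h1 := hrel g⁻¹ (B.inv_mem hg) ω
    rw [inv_inv] at h1
    exact h1
  let u : H →₀ k := τ v - Finsupp.single 1 1
  have hu : ∀ g ∈ B, sh g u = u := by
    intro g hg
    simp only [u, map_sub, ← h.equi, hv g hg, map_add, h.split, sh_single, smul_eq_mul, mul_one]
    abel
  have hu0 : u = 0 := by
    by_contra h0
    obtain ⟨x, hx⟩ := Finsupp.support_nonempty_iff.2 h0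
    refine not_finite_iff_infinite.2 hinf (Finite.of_injective (β := u.support)
      (fun b => ⟨(b : H)⁻¹ * x, ?_⟩) ?_)
    · rw [Finsupp.mem_support_iff] at hx ⊢
      rwa [← hu b b.2, sh_apply] at hx
    · intro a b hab
      simpa using hab
  have := congrArg (StallingsSwan.aug (Ω := H) (k := k)) hu0
  simp only [u, map_sub, h.aug, map_zero] at this
  simp [StallingsSwan.aug] at this

/-- The affine map given by a group element and a translation vector. -/
noncomputable def aff (g : H) (u : Ω →₀ k) : Equiv.Perm (Ω →₀ k) where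
  toFun f := u + sh g f
  invFun f := sh g⁻¹ (f - u)
  left_inv f := by simp [← sh_mul, sh_one]
  right_inv f := by simp only [← sh_mul, mul_inv_cancel, sh_one]; abel

/-- The elements acting by an affine map with the prescribed linear part. -/
def affine {Γ : Type} [Group Γ] (q : Γ →* H) (l : Γ →* Equiv.Perm (Ω →₀ k)) : Subgroup Γ where
  carrier := {x | ∀ f, l x f = l x 0 + sh (q x) f}
  one_mem' := fun f => by simp [sh_one]
  mul_mem' := fun {x y} hx hy f => by
    simp only [map_mul, Equiv.Perm.mul_apply, sh_mul]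
    rw [hx, hy, hx (l y 0), map_add, add_assoc]
  inv_mem' := fun {x} hx f => by
    have h1 : ∀ f, l x (l x⁻¹ f) = f := fun f => by
      rw [← Equiv.Perm.mul_apply, ← map_mul, mul_inv_cancel, map_one, Equiv.Perm.one_apply]
    apply (l x).injective
    rw [hx (_ + _), map_add, ← add_assoc, ← hx, ← sh_mul, h1, h1, ← map_mul, mul_inv_cancel,
      map_one, sh_one, zero_add]

/-- `B` is algebraic over `A`. -/
def Alg (k : Type) [Field k] (A B : Subgroup H) : Prop :=
  ∀ e : H → (H →₀ k), Der B e → (∀ a ∈ A, e a = 0) → ∀ b ∈ B, e b = 0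

theorem Alg.fg {A B : Subgroup H} (h : Alg k A B) (hAB : A ≤ B) (hA : A.FG) [IsFreeGroup B] :
    B.FG := by
  classical
  let β := IsFreeGroup.basis B
  have htop : Subgroup.closure (range β) = ⊤ := by
    rw [eq_top_iff]
    intro x _
    obtain ⟨w, rfl⟩ := β.repr.symm.surjective x
    induction w using FreeGroup.induction_on with
    | C1 => simp
    | of i => exact Subgroup.subset_closure ⟨i, rfl⟩
    | inv_of i ih => rw [map_inv]; exact inv_mem (ih trivial)
    | mul a b iha ihb => rw [map_mul]; exact mul_mem (iha trivial) (ihb trivial)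
  have hfin : ∀ x : B, ∃ Z : Finset (IsFreeGroup.Generators B), x ∈ Subgroup.closure (β '' Z) := by
    intro x
    have hx : x ∈ Subgroup.closure (range β) := by rw [htop]; trivial
    induction hx using Subgroup.closure_induction with
    | mem y hy =>
      obtain ⟨i, rfl⟩ := hy
      exact ⟨{i}, Subgroup.subset_closure ⟨i, by simp, rfl⟩⟩
    | one => exact ⟨∅, one_mem _⟩
    | mul a b _ _ ha hb =>
      obtain ⟨U, hU⟩ := ha
      obtain ⟨V, hV⟩ := hb
      exact ⟨U ∪ V, mul_mem (Subgroup.closure_mono (image_mono (by simp)) hU)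
        (Subgroup.closure_mono (image_mono (by simp)) hV)⟩
    | inv a _ ha =>
      obtain ⟨U, hU⟩ := ha
      exact ⟨U, inv_mem hU⟩
  choose Z hZ using hfin
  obtain ⟨Y, hY⟩ := hA
  let Z₀ := Y.attach.biUnion (fun y => Z ⟨y.1, hAB (hY ▸ Subgroup.subset_closure y.2)⟩)
  have hall : ∀ i, i ∈ Z₀ := by
    intro i
    by_contra hi
    let l : B →* Equiv.Perm (H →₀ k) :=
      β.lift (fun j => aff (β j : H) (if j = i then Finsupp.single 1 1 else 0))
    have hl : ∀ j, l (β j) = aff (β j : H) (if j = i then Finsupp.single 1 1 else 0) :=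
      fun j => congrFun (β.lift.symm_apply_apply _) j
    have haff : ∀ x, x ∈ affine B.subtype l := by
      have : ⊤ ≤ affine B.subtype l := by
        rw [← htop, Subgroup.closure_le]
        rintro _ ⟨j, rfl⟩ f
        simp [hl, aff]
      exact fun x => this trivial
    let e : H → (H →₀ k) := fun x => if hx : x ∈ B then l ⟨x, hx⟩ 0 else 0
    have he : ∀ x : B, e x = l x 0 := fun x => by simp [e]
    have hder : Der B e := by
      intro x hx y hy
      have h1 : e (x * y) = l (⟨x, hx⟩ * ⟨y, hy⟩) 0 := he (⟨x, hx⟩ * ⟨y, hy⟩)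
      have h2 : e x = l ⟨x, hx⟩ 0 := he ⟨x, hx⟩
      have h3 : e y = l ⟨y, hy⟩ 0 := he ⟨y, hy⟩
      rw [h1, h2, h3, map_mul, Equiv.Perm.mul_apply]
      exact haff ⟨x, hx⟩ _
    have h1 : Subgroup.closure (β '' Z₀) ≤ (hder.vanish univ (by simp)).comap B.subtype := by
      rw [Subgroup.closure_le]
      rintro _ ⟨j, hj, rfl⟩
      refine ⟨(β j).2, fun ω _ => ?_⟩
      have : j ≠ i := by rintro rfl; exact hi hj
      simp [he, hl, aff, this]
    have h2 : A ≤ hder.vanish univ (by simp) := by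
      rw [← hY, Subgroup.closure_le]
      intro y hy
      exact h1 (Subgroup.closure_mono (image_mono (Finset.coe_subset.2
        (Finset.subset_biUnion_of_mem _ (Finset.mem_attach Y ⟨y, hy⟩)))) (hZ _))
    have h3 := h e hder (fun a ha => Finsupp.ext fun ω => (h2 ha).2 ω trivial) _ (β i).2
    simp [he, hl, aff] at h3
  rw [← Group.fg_iff_subgroup_fg, Group.fg_iff]
  refine ⟨range β, htop, finite_range_iff β.injective |>.2 ?_⟩
  exact Finite.of_surjective (fun z : Z₀ => z.1) (fun i => ⟨⟨i, hall i⟩, rfl⟩)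

theorem Proj.exists_bound {d : H → (Ω →₀ k)} {τ : (Ω →₀ k) →ₗ[k] (H →₀ k)} (h : Proj d τ)
    {A : Subgroup H} (hA : A.FG) : ∃ B₀ : Subgroup H, B₀.FG ∧ ∀ B, Alg k A B → B ≤ B₀ := by
  classical
  obtain ⟨Y, hY⟩ := hA
  let F : Finset Ω := Y.biUnion (fun y => (d y).support)
  let T : Finset H := F.biUnion (fun ω => (τ (Finsupp.single ω 1)).support)
  refine ⟨Subgroup.closure T, ⟨T, rfl⟩, fun B hB b hb => ?_⟩
  set B₀ := Subgroup.closure (T : Set H)
  have hsupp : ∀ ω ∈ (d b).support, ∃ g : H, g • ω ∈ F := by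
    intro ω hω
    by_contra h1
    push Not at h1
    have hinj : Function.Injective (fun g : H => g • ω) := by
      intro x y hxy
      have := h.free (y⁻¹ * x) ω (by rw [mul_smul, show x • ω = y • ω from hxy, inv_smul_smul])
      exact (inv_mul_eq_one.1 this).symm
    let e : H → (H →₀ k) := fun g => Finsupp.comapDomain (fun x : H => x • ω) (d g) hinj.injOn
    have hder : Der B e := by
      intro x _ y _
      ext z
      simp only [e, Finsupp.comapDomain_apply, Finsupp.add_apply, sh_apply, h.der x trivial y trivial,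
        smul_eq_mul, mul_smul]
    have h2 : A ≤ h.der.vanish (range fun g : H => g • ω) (by
        rintro a _ _ ⟨g, rfl⟩
        exact ⟨a * g, mul_smul _ _ _⟩) := by
      rw [← hY, Subgroup.closure_le]
      refine fun y hy => ⟨trivial, ?_⟩
      rintro _ ⟨g, rfl⟩
      by_contra h3
      exact h1 g (Finset.mem_biUnion.2 ⟨y, hy, Finsupp.mem_support_iff.2 h3⟩)
    have h3 := hB e hder (fun a ha => Finsupp.ext fun g => (h2 ha).2 _ ⟨g, rfl⟩) b hb
    have h4 := DFunLike.congr_fun h3 1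
    simp only [e, Finsupp.comapDomain_apply, one_smul] at h4
    exact Finsupp.mem_support_iff.1 hω h4
  let π : (H →₀ k) →ₗ[k] (H ⧸ B₀ →₀ k) := Finsupp.lmapDomain k k QuotientGroup.mk
  have hπ : ∀ (g : H) (u : H →₀ k), (∀ x ∈ u.support, x ∈ B₀) →
      π (sh g u) = Finsupp.single (g : H ⧸ B₀) (StallingsSwan.aug u) := by
    intro g u hu
    have h1 : π (sh g u) = Finsupp.mapDomain (fun _ => (g : H ⧸ B₀)) u := by
      simp only [π, sh, Finsupp.lmapDomain_apply, ← Finsupp.mapDomain_comp]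
      refine Finsupp.mapDomain_congr (fun x hx => ?_)
      simpa [QuotientGroup.eq] using hu x hx
    rw [h1]
    clear h1 hu
    induction u using Finsupp.induction_linear with
    | zero => simp
    | add u v hu hv => rw [Finsupp.mapDomain_add, hu, hv, map_add, Finsupp.single_add]
    | single x c => simp [StallingsSwan.aug]
  have h0 : π (τ (d b)) = 0 := by
    conv_lhs => rw [← Finsupp.sum_single (d b), Finsupp.sum, map_sum, map_sum]
    refine Finset.sum_eq_zero (fun ω hω => ?_)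
    obtain ⟨g, hg⟩ := hsupp ω hω
    have h1 : Finsupp.single ω (d b ω) = d b ω • sh g⁻¹ (Finsupp.single (g • ω) (1 : k)) := by
      simp [sh_single]
    rw [h1, map_smul, map_smul, h.equi, hπ _ _ (fun x hx =>
      Subgroup.subset_closure (Finset.mem_coe.2 (Finset.mem_biUnion.2 ⟨_, hg, hx⟩))), h.aug]
    simp
  rw [h.split, map_sub, sub_eq_zero] at h0
  simp only [π, Finsupp.lmapDomain_apply, Finsupp.mapDomain_single] at h0
  have h1 := Finsupp.single_left_injective one_ne_zero h0
  simpa [QuotientGroup.eq] using h1.symm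

theorem Proj.exists_hull [Finite k] {d : H → (Ω →₀ k)} {τ : (Ω →₀ k) →ₗ[k] (H →₀ k)}
    (h : Proj d τ) (hLI : LocInd H) {A : Subgroup H} (hA : A.FG) :
    ∃ B : Subgroup H, B.FG ∧ A ≤ B ∧ Good B := by
  have htf : ∀ g : H, IsOfFinOrder g → g = 1 := fun g => hLI.eq_one_of_isOfFinOrder
  have hbot := h.good_bot htf
  let B := sSup {B | A ≤ B ∧ Alg k A B}
  have hAB : A ≤ B := le_sSup ⟨le_rfl, fun e _ h1 => h1⟩
  have halg : Alg k A B := by
    intro e he h1 b hb
    have : B ≤ he.vanish univ (by simp) := sSup_le (fun C hC x hx =>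
      ⟨le_sSup hC hx, fun ω _ => by rw [hC.2 e (he.mono (le_sSup hC)) h1 x hx]; rfl⟩)
    exact Finsupp.ext fun ω => (this hb).2 ω trivial
  obtain ⟨B₀, hB₀, hle⟩ := h.exists_bound hA
  obtain ⟨Z, hZ⟩ := exists_ff hLI hbot _ B₀ hB₀ rfl ⊥ bot_le hbot
  have := hZ.isFreeGroup
  have : IsFreeGroup B := IsFreeGroup.ofMulEquiv (Subgroup.subgroupOfEquivOfLe (hle B halg))
  refine ⟨B, halg.fg hAB hA, hAB, ?_⟩
  by_cases hB : B = ⊥
  · rw [hB]; exact hbot
  have hinf := infinite_of_ne_bot htf hB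
  intro C _ hBC
  have hn : ¬ Alg k A C := fun h1 => hBC.not_ge (le_sSup ⟨hAB.trans hBC.le, h1⟩)
  simp only [Alg, not_forall] at hn
  obtain ⟨e, he, h1, g₀, hg₀, hne⟩ := hn
  obtain ⟨ω, hω⟩ := Finsupp.support_nonempty_iff.2 hne
  have h2 := halg e (he.mono hBC.le) h1
  have hfree : ∀ g x : H, g • x = x → g = 1 := fun g x hx => by simpa using hx
  have hinv : Inv (B.subgroupOf C) {b : C | phi e ω b = 0} := by
    intro x a ha hx
    simp only [mem_ofPred_eq, Subgroup.coe_mul] at hx ⊢
    have h5 : e (a : H)⁻¹ = 0 := h2 _ (B.inv_mem (show (a : H) ∈ B from ha))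
    rw [he.phi_mul ω x.2 a.2, hx, h5]
    simp
  have key : ∀ S : Set C, Inv (B.subgroupOf C) S → S.Nonempty → S.Infinite := by
    rintro S hS ⟨x, hx⟩
    refine infinite_of_injective_forall_mem (f := fun a : B => x * ⟨a, hBC.le a.2⟩) ?_
      (fun a => hS x _ a.2 hx)
    intro a b hab
    simpa using hab
  refine ⟨_, he.ai hfree ω 0, hinv, key _ hinv ⟨1, by simp [phi, he.map_one]⟩,
    key _ hinv.compl ?_⟩
  by_contra h3
  rw [not_nonempty_iff_eq_empty, compl_empty_iff, eq_univ_iff_forall] at h3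
  have h4 := he.phi_mul ω hg₀ (C.inv_mem hg₀)
  rw [show phi e ω g₀ = 0 from h3 ⟨g₀, hg₀⟩, mul_inv_cancel, show phi e ω 1 = 0 from h3 1] at h4
  exact Finsupp.mem_support_iff.1 hω (by simpa using h4.symm)

/-- A countable locally indicable group whose augmentation ideal over a finite field is
projective is a free group. -/
theorem Proj.isFreeGroup [Finite k] [Countable H] {d : H → (Ω →₀ k)}
    {τ : (Ω →₀ k) →ₗ[k] (H →₀ k)} (h : Proj d τ) (hLI : LocInd H) : IsFreeGroup H := by
  have hbot := h.good_bot (fun g => hLI.eq_one_of_isOfFinOrder)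
  obtain ⟨e, he⟩ := exists_surjective_nat H
  choose G hG using fun (A : Subgroup H) (hA : A.FG) => h.exists_hull hLI hA
  have hsup : ∀ (A : Subgroup H) (x : H), A.FG → (A ⊔ Subgroup.zpowers x).FG := fun A x hA =>
    hA.sup ⟨{x}, by simp [Subgroup.zpowers_eq_closure]⟩
  let s : ℕ → {A : Subgroup H // A.FG ∧ Good A} := fun n =>
    Nat.rec ⟨⊥, ⟨∅, by simp⟩, hbot⟩ (fun n p => ⟨G _ (hsup p.1 (e n) p.2.1),
      (hG _ _).1, (hG _ _).2.2⟩) n
  have hs : ∀ n, (s n).1 ⊔ Subgroup.zpowers (e n) ≤ (s (n + 1)).1 := fun n => (hG _ _).2.1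
  choose Z hZ using fun n => exists_ff hLI hbot _ (s (n + 1)).1 (s (n + 1)).2.1 rfl (s n).1
    (le_sup_left.trans (hs n)) (s n).2.2
  have := (ff_of_chain (fun n => (s n).1) rfl Z hZ (fun x => by
    obtain ⟨n, rfl⟩ := he x
    exact ⟨n + 1, hs n (Subgroup.mem_sup_right (Subgroup.mem_zpowers _))⟩)).isFreeGroup
  exact IsFreeGroup.ofMulEquiv (Subgroup.topEquiv (G := H))

end Pool.Agent.Shared.StallingsSwan
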